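import Pool.Agent.Helper66_D2.Stmts
import Pool.Agent.Helper66_D1.Tool
import Pool.Agent.Helper20_PP.Fun
import Pool.Agent.Helper66_PP.Pos1

/-!
# Part D2: calculus of functions and of their actions
-/

open scoped BigOperators

set_option linter.unusedSectionVars false

noncomputable section

namespace Pool.Agent.PP.CD2.H66

open Pool.Agent.PP Pool.Agent.Helper51_AWC Pool.Agent.Helper79_WRA Pool.Agent.PP.H20

variable {F : Type} [Field F] {G : Type} [Group G] [Finite G] {V V' : Type} [AddCommGroup V]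
  [Module F V] [AddCommGroup V'] [Module F V']

/-! ## The group algebra -/

theorem toMA_sum {m : ℕ} (a : Fin m → G → F) : toMA (∑ k, a k) = ∑ k, toMA (a k) :=
  map_sum (maE (F := F) (H := G)) a Finset.univ

theorem toMA_sum' {ι : Type} (s : Finset ι) (a : ι → G → F) :
    toMA (∑ k ∈ s, a k) = ∑ k ∈ s, toMA (a k) :=
  map_sum (maE (F := F) (H := G)) a s

theorem pwF_zero (w a : G → F) : pwF w 0 a = a := rfl

theorem pwF_succ (w a : G → F) (s : ℕ) : pwF w (s + 1) a = mulF w (pwF w s a) :=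
  Function.iterate_succ_apply' _ _ _

theorem pwR_zero (w a : G → F) : pwR w 0 a = a := rfl

theorem pwR_succ (w a : G → F) (s : ℕ) : pwR w (s + 1) a = mulF (pwR w s a) w :=
  Function.iterate_succ_apply' _ _ _

theorem toMA_pwF (w a : G → F) (s : ℕ) : toMA (pwF w s a) = toMA w ^ s * toMA a := by
  induction s with
  | zero => rw [pwF_zero, pow_zero, one_mul]
  | succ s ih => rw [pwF_succ, toMA_mulF, ih, pow_succ', mul_assoc]

theorem toMA_pwR (w a : G → F) (s : ℕ) : toMA (pwR w s a) = toMA a * toMA w ^ s := by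
  induction s with
  | zero => rw [pwR_zero, pow_zero, mul_one]
  | succ s ih => rw [pwR_succ, toMA_mulF, ih, pow_succ, mul_assoc]

theorem pwF_add (w a : G → F) (s t : ℕ) : pwF w (s + t) a = pwF w s (pwF w t a) := by
  apply toMA_injective
  rw [toMA_pwF, toMA_pwF, toMA_pwF, pow_add, mul_assoc]

/-- conjugates -/
theorem toMA_conj (x : G) (a : G → F) : toMA (fun g => a (x⁻¹ * g * x)) =
    MonoidAlgebra.single x (1 : F) * toMA a * MonoidAlgebra.single x⁻¹ (1 : F) := by
  rw [single_mul_toMA, toMA_mul_single]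
  congr 1
  funext g
  rw [inv_inv, mul_assoc]

theorem single_mul_single_inv (x : G) :
    (MonoidAlgebra.single x (1 : F) : MonoidAlgebra F G) * MonoidAlgebra.single x⁻¹ (1 : F) = 1 := by
  rw [MonoidAlgebra.single_mul_single, mul_inv_cancel, mul_one]
  rfl

theorem single_inv_mul_single (x : G) :
    (MonoidAlgebra.single x⁻¹ (1 : F) : MonoidAlgebra F G) * MonoidAlgebra.single x (1 : F) = 1 := by
  rw [MonoidAlgebra.single_mul_single, inv_mul_cancel, mul_one]
  rfl

/-- conjugation is multiplicative -/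
theorem conj_mulF (x : G) (a c : G → F) : (fun g => mulF a c (x⁻¹ * g * x)) =
    mulF (fun g => a (x⁻¹ * g * x)) (fun g => c (x⁻¹ * g * x)) := by
  apply toMA_injective
  rw [toMA_conj, toMA_mulF, toMA_mulF, toMA_conj, toMA_conj]
  have h : (MonoidAlgebra.single x (1 : F) * toMA a * MonoidAlgebra.single x⁻¹ (1 : F)) *
      (MonoidAlgebra.single x (1 : F) * toMA c * MonoidAlgebra.single x⁻¹ (1 : F)) =
      MonoidAlgebra.single x (1 : F) * toMA a * ((MonoidAlgebra.single x⁻¹ (1 : F) *
      MonoidAlgebra.single x (1 : F)) * (toMA c * MonoidAlgebra.single x⁻¹ (1 : F))) := by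
    simp only [mul_assoc]
  rw [h, single_inv_mul_single, one_mul]
  simp only [mul_assoc]

/-! ## Supports, commuting elements -/

theorem _root_.Pool.Agent.PP.CD2.SpF.zero (C : Subgroup G) : SpF C (0 : G → F) := fun _ _ => rfl

theorem _root_.Pool.Agent.PP.CD2.SpF.add {C : Subgroup G} {a c : G → F} (ha : SpF C a) (hc : SpF C c) : SpF C (a + c) := by
  intro x hx
  rw [Pi.add_apply, ha x hx, hc x hx, add_zero]

theorem _root_.Pool.Agent.PP.CD2.SpF.sub {C : Subgroup G} {a c : G → F} (ha : SpF C a) (hc : SpF C c) : SpF C (a - c) := by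
  intro x hx
  rw [Pi.sub_apply, ha x hx, hc x hx, sub_zero]

theorem _root_.Pool.Agent.PP.CD2.SpF.smul {C : Subgroup G} {a : G → F} (α : F) (ha : SpF C a) : SpF C (α • a) := by
  intro x hx
  rw [Pi.smul_apply, ha x hx, smul_zero]

theorem _root_.Pool.Agent.PP.CD2.SpF.sum {C : Subgroup G} {ι : Type} {s : Finset ι} {a : ι → G → F}
    (ha : ∀ k ∈ s, SpF C (a k)) : SpF C (∑ k ∈ s, a k) := by
  intro x hx
  rw [Finset.sum_apply]
  exact Finset.sum_eq_zero fun k hk => ha k hk x hx

theorem _root_.Pool.Agent.PP.CD2.SpF.mul {C : Subgroup G} {a c : G → F} (ha : SpF C a) (hc : SpF C c) :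
    SpF C (mulF a c) := by
  intro x hx
  have := Fintype.ofFinite G
  unfold mulF
  rw [finsum_eq_sum_of_fintype]
  refine Finset.sum_eq_zero fun t _ => ?_
  by_cases ht : t ∈ C
  · rw [hc, mul_zero]
    intro h
    apply hx
    have := mul_mem ht h
    rwa [mul_inv_cancel_left] at this
  · rw [ha t ht, zero_mul]

theorem _root_.Pool.Agent.PP.CD2.SpF.pwF {C : Subgroup G} {w a : G → F} (hw : SpF C w) (ha : SpF C a) (s : ℕ) :
    SpF C (pwF w s a) := by
  induction s with
  | zero => exact ha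
  | succ s ih =>
    rw [pwF_succ]
    exact hw.mul ih

theorem _root_.Pool.Agent.PP.CD2.SpF.mono {C D : Subgroup G} (h : C ≤ D) {a : G → F} (ha : SpF C a) : SpF D a :=
  fun x hx => ha x fun hc => hx (h hc)

theorem cmF_iff {C : Subgroup G} {a : G → F} : CmF C a ↔ ∀ c ∈ C,
    MonoidAlgebra.single c (1 : F) * toMA a = toMA a * MonoidAlgebra.single c (1 : F) := by
  constructor
  · intro h c hc
    rw [single_mul_toMA, toMA_mul_single]
    congr 1
    funext y
    have := h c hc (c⁻¹ * y)
    rw [mul_inv_cancel_left] at this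
    exact this.symm
  · intro h c hc x
    have h1 := h c hc
    rw [single_mul_toMA, toMA_mul_single] at h1
    have h2 := congrFun (toMA_injective h1) (c * x)
    simp only [inv_mul_cancel_left] at h2
    exact h2.symm

theorem _root_.Pool.Agent.PP.CD2.CmF.zero (C : Subgroup G) : CmF C (0 : G → F) := fun _ _ _ => rfl

theorem _root_.Pool.Agent.PP.CD2.CmF.add {C : Subgroup G} {a c : G → F} (ha : CmF C a) (hc : CmF C c) : CmF C (a + c) := by
  intro x hx y
  rw [Pi.add_apply, Pi.add_apply, ha x hx, hc x hx]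

theorem _root_.Pool.Agent.PP.CD2.CmF.sub {C : Subgroup G} {a c : G → F} (ha : CmF C a) (hc : CmF C c) : CmF C (a - c) := by
  intro x hx y
  rw [Pi.sub_apply, Pi.sub_apply, ha x hx, hc x hx]

theorem _root_.Pool.Agent.PP.CD2.CmF.smul {C : Subgroup G} {a : G → F} (α : F) (ha : CmF C a) : CmF C (α • a) := by
  intro x hx y
  rw [Pi.smul_apply, Pi.smul_apply, ha x hx]

theorem _root_.Pool.Agent.PP.CD2.CmF.sum {C : Subgroup G} {ι : Type} {s : Finset ι} {a : ι → G → F}
    (ha : ∀ k ∈ s, CmF C (a k)) : CmF C (∑ k ∈ s, a k) := by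
  intro x hx y
  rw [Finset.sum_apply, Finset.sum_apply]
  exact Finset.sum_congr rfl fun k hk => ha k hk x hx y

theorem _root_.Pool.Agent.PP.CD2.CmF.mul {C : Subgroup G} {a c : G → F} (ha : CmF C a) (hc : CmF C c) :
    CmF C (mulF a c) := by
  rw [cmF_iff] at ha hc ⊢
  intro x hx
  rw [toMA_mulF, ← mul_assoc, ha x hx, mul_assoc, hc x hx, mul_assoc]

theorem _root_.Pool.Agent.PP.CD2.CmF.pwF {C : Subgroup G} {w a : G → F} (hw : CmF C w) (ha : CmF C a) (s : ℕ) :
    CmF C (pwF w s a) := by
  induction s with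
  | zero => exact ha
  | succ s ih =>
    rw [pwF_succ]
    exact hw.mul ih

theorem _root_.Pool.Agent.PP.CD2.CmF.mono {C D : Subgroup G} (h : C ≤ D) {a : G → F} (ha : CmF D a) : CmF C a :=
  fun c hc => ha c (h hc)

theorem toMA_mem_span {C : Subgroup G} {a : G → F} (ha : SpF C a) :
    toMA a ∈ Submodule.span F ((fun g : G => MonoidAlgebra.single g (1 : F)) '' (C : Set G)) := by
  have := Fintype.ofFinite G
  rw [toMA_eq]
  refine Submodule.sum_mem _ fun g _ => ?_
  by_cases hg : g ∈ C
  · have h : (MonoidAlgebra.single g (a g) : MonoidAlgebra F G) =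
        a g • MonoidAlgebra.single g (1 : F) := by
      rw [MonoidAlgebra.smul_single, smul_eq_mul, mul_one]
    rw [h]
    exact Submodule.smul_mem _ _ (Submodule.subset_span ⟨g, hg, rfl⟩)
  · rw [ha g hg, MonoidAlgebra.single_zero]
    exact zero_mem _

theorem comm_of {C : Subgroup G} {a c : G → F} (ha : CmF C a) (hc : SpF C c) :
    toMA a * toMA c = toMA c * toMA a := by
  have key : ∀ z ∈ Submodule.span F
      ((fun g : G => MonoidAlgebra.single g (1 : F)) '' (C : Set G)),
      toMA a * z = z * toMA a := by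
    intro z hz
    induction hz using Submodule.span_induction with
    | mem x hx =>
      obtain ⟨g, hg, rfl⟩ := hx
      exact (cmF_iff.1 ha g hg).symm
    | zero => rw [mul_zero, zero_mul]
    | add x y _ _ hx hy => rw [mul_add, add_mul, hx, hy]
    | smul r x _ hx => rw [mul_smul_comm, smul_mul_assoc, hx]
  exact key _ (toMA_mem_span hc)

/-- elements commuting with `C` commute with the elements supported on `C` -/
theorem cm_comm {C : Subgroup G} {a c : G → F} (ha : CmF C a) (hc : SpF C c) :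
    mulF a c = mulF c a := by
  apply toMA_injective
  rw [toMA_mulF, toMA_mulF, comm_of ha hc]

theorem cmF_of_cl {a : G → F} (ha : IsCl a) (C : Subgroup G) : CmF C a := fun c _ x => ha x c

/-- the Brauer map of an element commuting with the normaliser -/
theorem bY_cm {y : G} {b : G → F} {H : Subgroup G} (hb : CmF H b) : CmF (H ⊓ NY y) (bY y b) := by
  classical
  intro c hc x
  have h : c * x * c⁻¹ ∈ Subgroup.centralizer (Subgroup.zpowers y : Set G) ↔
      x ∈ Subgroup.centralizer (Subgroup.zpowers y : Set G) := by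
    have key : ∀ g : G, g ∈ NY y → ∀ x : G,
        x ∈ Subgroup.centralizer (Subgroup.zpowers y : Set G) →
        g * x * g⁻¹ ∈ Subgroup.centralizer (Subgroup.zpowers y : Set G) := by
      intro g hg x hx
      rw [Subgroup.mem_centralizer_iff] at hx ⊢
      intro z hz
      have h1 : g⁻¹ * z * g ∈ Subgroup.zpowers y := by
        have := (Subgroup.mem_normalizer_iff.1 (inv_mem hg) z).1 hz
        rwa [inv_inv] at this
      have h2 := hx _ h1
      calc z * (g * x * g⁻¹) = g * ((g⁻¹ * z * g) * x) * g⁻¹ := by group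
        _ = g * (x * (g⁻¹ * z * g)) * g⁻¹ := by rw [h2]
        _ = g * x * g⁻¹ * z := by group
    constructor
    · intro h
      have := key c⁻¹ (inv_mem hc.2) _ h
      have e : c⁻¹ * (c * x * c⁻¹) * c⁻¹⁻¹ = x := by group
      rwa [e] at this
    · exact key c hc.2 x
  unfold bY br
  by_cases hx : x ∈ Subgroup.centralizer (Subgroup.zpowers y : Set G)
  · rw [if_pos hx, if_pos (h.2 hx)]
    exact hb c hc.1 x
  · rw [if_neg hx, if_neg fun h' => hx (h.1 h')]

theorem bY_sp {y : G} {b : G → F} {N : Subgroup G} (hb : SpF N b) : SpF (N ⊓ CY y) (bY y b) := by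
  classical
  intro x hx
  unfold bY br
  by_cases hc : x ∈ Subgroup.centralizer (Subgroup.zpowers y : Set G)
  · rw [if_pos hc]
    exact hb x fun hn => hx ⟨hn, hc⟩
  · rw [if_neg hc]

theorem bY_mulF {ℓ : ℕ} (hF : GoodF ℓ F) {y : G} (hy : IsPGroup ℓ (Subgroup.zpowers y))
    {a c : G → F} (ha : CmF (Subgroup.zpowers y) a) (hc : CmF (Subgroup.zpowers y) c) :
    bY y (mulF a c) = mulF (bY y a) (bY y c) :=
  _root_.Pool.Agent.PP.H66.br_mulF hF hy (fun p hp x => ha p hp x) (fun p hp x => hc p hp x)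

theorem CY_le_NY (y : G) : CY y ≤ NY y := by
  intro c hc
  refine Subgroup.mem_normalizer_iff.2 fun z => ?_
  have hc' := Subgroup.mem_centralizer_iff.1 hc
  constructor
  · intro hz
    have := hc' z hz
    rw [← this, mul_assoc, mul_inv_cancel, mul_one]
    exact hz
  · intro hz
    have h1 := hc' _ hz
    have h2 : c * z * c⁻¹ * c = c * (c * z * c⁻¹) := h1
    have h3 : c * z = c * (c * z * c⁻¹) := by
      rw [← h2]
      group
    rw [mul_left_cancel h3]
    exact hz

/-! ## Actions -/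

theorem evV_add (ρ : Representation F G V) (a c : G → F) :
    evV ρ (a + c) = evV ρ a + evV ρ c := by
  have := Fintype.ofFinite G
  ext v
  rw [D66.evV_apply, LinearMap.add_apply, D66.evV_apply, D66.evV_apply, ← Finset.sum_add_distrib]
  exact Finset.sum_congr rfl fun g _ => by rw [Pi.add_apply, add_smul]

theorem evV_smul (ρ : Representation F G V) (α : F) (a : G → F) :
    evV ρ (α • a) = α • evV ρ a := by
  have := Fintype.ofFinite G
  ext v
  rw [D66.evV_apply, LinearMap.smul_apply, D66.evV_apply, Finset.smul_sum]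
  exact Finset.sum_congr rfl fun g _ => by rw [Pi.smul_apply, smul_eq_mul, mul_smul]

/-- `evV` as a linear map -/
def evL (ρ : Representation F G V) : (G → F) →ₗ[F] (V →ₗ[F] V) where
  toFun a := evV ρ a
  map_add' := evV_add ρ
  map_smul' := evV_smul ρ

theorem evV_zero (ρ : Representation F G V) : evV ρ (0 : G → F) = 0 := (evL ρ).map_zero

theorem evV_sub (ρ : Representation F G V) (a c : G → F) :
    evV ρ (a - c) = evV ρ a - evV ρ c := (evL ρ).map_sub a c

theorem evV_sum {ι : Type} (ρ : Representation F G V) (s : Finset ι) (a : ι → G → F) :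
    evV ρ (∑ k ∈ s, a k) = ∑ k ∈ s, evV ρ (a k) := map_sum (evL ρ) a s

theorem evV_mulF_apply (ρ : Representation F G V) (a c : G → F) (v : V) :
    evV ρ (mulF a c) v = evV ρ a (evV ρ c v) := by
  have := Fintype.ofFinite G
  rw [D66.evV_apply, D66.evV_apply]
  have h1 : ∀ t : G, a t • ρ t (evV ρ c v) = ∑ g : G, (a t * c (t⁻¹ * g)) • ρ g v := by
    intro t
    rw [D66.evV_apply, map_sum, Finset.smul_sum]
    refine Fintype.sum_equiv (Equiv.mulLeft t) _ _ fun g => ?_
    change _ = (a t * c (t⁻¹ * (t * g))) • ρ (t * g) v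
    rw [inv_mul_cancel_left, map_smul, smul_smul, map_mul]
    rfl
  rw [Finset.sum_congr rfl fun t _ => h1 t, Finset.sum_comm]
  refine Finset.sum_congr rfl fun g _ => ?_
  rw [mulF, finsum_eq_sum_of_fintype, Finset.sum_smul]

theorem evV_mulF (ρ : Representation F G V) (a c : G → F) :
    evV ρ (mulF a c) = evV ρ a * evV ρ c := by
  ext v
  exact evV_mulF_apply ρ a c v

theorem evV_pwF (ρ : Representation F G V) (w a : G → F) (s : ℕ) :
    evV ρ (pwF w s a) = (evV ρ w) ^ s * evV ρ a := by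
  induction s with
  | zero => rw [pwF_zero, pow_zero, one_mul]
  | succ s ih => rw [pwF_succ, evV_mulF, ih, pow_succ', mul_assoc]

theorem evV_conj (ρ : Representation F G V) (x : G) (a : G → F) (v : V) :
    evV ρ (fun g => a (x⁻¹ * g * x)) (ρ x v) = ρ x (evV ρ a v) := by
  have := Fintype.ofFinite G
  rw [D66.evV_apply, D66.evV_apply, map_sum]
  symm
  refine Fintype.sum_equiv (MulAut.conj x).toEquiv _ _ fun g => ?_
  change ρ x (a g • ρ g v) = a (x⁻¹ * (x * g * x⁻¹) * x) • ρ (x * g * x⁻¹) (ρ x v)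
  have e : x⁻¹ * (x * g * x⁻¹) * x = g := by group
  rw [e, map_smul, ← Module.End.mul_apply, ← Module.End.mul_apply, ← map_mul, ← map_mul]
  congr 3
  group

theorem evV_cm (ρ : Representation F G V) {C : Subgroup G} {a : G → F} (ha : CmF C a) {c : G}
    (hc : c ∈ C) (v : V) : evV ρ a (ρ c v) = ρ c (evV ρ a v) := by
  rw [← evV_conj ρ c a v]
  congr 2
  funext g
  have := ha c⁻¹ (inv_mem hc) g
  rw [inv_inv] at this
  exact this.symm

theorem evV_shift (ρ : Representation F G V) (x : G) (a : G → F) (v : V) :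
    evV ρ (fun g => a (x⁻¹ * g)) v = ρ x (evV ρ a v) := by
  have := Fintype.ofFinite G
  rw [D66.evV_apply, D66.evV_apply, map_sum]
  symm
  refine Fintype.sum_equiv (Equiv.mulLeft x) _ _ fun g => ?_
  change ρ x (a g • ρ g v) = a (x⁻¹ * (x * g)) • ρ (x * g) v
  rw [inv_mul_cancel_left, map_smul, ← Module.End.mul_apply, ← map_mul]

/-! ## Sums of matrix algebras -/

section ums

variable {C : Subgroup G} {b w : G → F} {q : ℕ}

theorem ums_sb (h : UMS C b w q) : SpF C b := by
  obtain ⟨m, e, i, h1, _, h3, _⟩ := h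
  rw [← h3]
  exact SpF.sum fun t _ => (h1 t).sb

theorem ums_cb (h : UMS C b w q) : CmF C b := by
  obtain ⟨m, e, i, h1, _, h3, _⟩ := h
  rw [← h3]
  exact CmF.sum fun t _ => (h1 t).cb

theorem sum_mulF {m : ℕ} (e : Fin m → G → F) (a : G → F) :
    mulF (∑ t, e t) a = ∑ t, mulF (e t) a := by
  apply toMA_injective
  rw [toMA_mulF, toMA_sum, toMA_sum, Finset.sum_mul]
  exact Finset.sum_congr rfl fun t _ => (toMA_mulF _ _).symm

theorem mulF_sum {m : ℕ} (e : Fin m → G → F) (a : G → F) :
    mulF a (∑ t, e t) = ∑ t, mulF a (e t) := by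
  apply toMA_injective
  rw [toMA_mulF, toMA_sum, toMA_sum, Finset.mul_sum]
  exact Finset.sum_congr rfl fun t _ => (toMA_mulF _ _).symm

theorem ums_w (h : UMS C b w q) : mulF b w = w := by
  obtain ⟨m, e, i, _, _, _, h4⟩ := h
  exact h4

theorem ums_sw (h : UMS C b w q) : SpF C w := by
  obtain ⟨m, e, i, h1, _, h3, h4⟩ := h
  rw [← h4, ← h3, sum_mulF]
  exact SpF.sum fun t _ => (h1 t).sw

theorem ums_cw (h : UMS C b w q) : CmF C w := by
  obtain ⟨m, e, i, h1, _, h3, h4⟩ := h
  rw [← h4, ← h3, sum_mulF]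
  exact CmF.sum fun t _ => (h1 t).cw

theorem ums_bb (h : UMS C b w q) : mulF b b = b := by
  obtain ⟨m, e, i, h1, h2, h3, h4⟩ := h
  rw [← h3, sum_mulF]
  refine Finset.sum_congr rfl fun t _ => ?_
  rw [mulF_sum, Finset.sum_eq_single t (fun s _ hs => h2 t s (Ne.symm hs))
    (fun h => absurd (Finset.mem_univ _) h)]
  exact (h1 t).bb

theorem ums_wb (h : UMS C b w q) : mulF w b = w := by
  rw [← cm_comm (ums_cb h) (ums_sw h)]
  exact ums_w h

/-- `e_t w^s = (e_t w)^s e_t` -/
theorem umf_pw {C : Subgroup G} {e w : G → F} (he : mulF e e = e) (hc : CmF C e) (hw : SpF C w)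
    (s : ℕ) : pwF (mulF e w) s e = mulF e (pwF w s e) := by
  have h1 : toMA e * toMA w = toMA w * toMA e := comm_of hc hw
  have h2 : toMA e * toMA e = toMA e := by rw [← toMA_mulF, he]
  apply toMA_injective
  rw [toMA_pwF, toMA_mulF, toMA_mulF, toMA_pwF]
  induction s with
  | zero => rw [pow_zero, pow_zero, one_mul, h2]
  | succ s ih =>
    have hc' : toMA e * toMA w ^ s = toMA w ^ s * toMA e := Commute.pow_right h1 s
    rw [pow_succ', mul_assoc, ih, pow_succ']
    have e1 : toMA e * toMA w * (toMA e * (toMA w ^ s * toMA e)) =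
        toMA e * (toMA w * toMA e) * (toMA w ^ s * toMA e) := by simp only [mul_assoc]
    rw [e1, ← h1, ← mul_assoc (toMA e) (toMA e), h2]
    simp only [mul_assoc]

theorem ums_nil (h : UMS C b w q) : pwF w q b = 0 := by
  have hsw := ums_sw h
  obtain ⟨m, e, i, h1, h2, h3, h4⟩ := h
  have h5 : ∀ t, pwF w q (e t) = 0 := by
    intro t
    have h6 := (h1 t).nil
    rw [umf_pw (h1 t).bb (h1 t).cb hsw] at h6
    have h7 : toMA (e t) * toMA w ^ q = toMA w ^ q * toMA (e t) :=
      Commute.pow_right (comm_of (h1 t).cb hsw) q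
    have h8 : toMA (e t) * toMA (e t) = toMA (e t) := by rw [← toMA_mulF, (h1 t).bb]
    have h9 := congrArg toMA h6
    rw [toMA_mulF, toMA_pwF, ← mul_assoc, h7, mul_assoc, h8, toMA_zero] at h9
    apply toMA_injective
    rw [toMA_pwF, h9, toMA_zero]
  apply toMA_injective
  rw [toMA_pwF, ← h3, toMA_sum, Finset.mul_sum, toMA_zero]
  refine Finset.sum_eq_zero fun t _ => ?_
  rw [← toMA_pwF, h5, toMA_zero]

/-- `w ^ q = 0` if `0 < q` -/
theorem ums_nil' (h : UMS C b w q) (hq : 0 < q) : toMA w ^ q = 0 := by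
  have h1 := congrArg toMA (ums_nil h)
  rw [toMA_pwF, toMA_zero] at h1
  obtain ⟨r, rfl⟩ : ∃ r, q = r + 1 := ⟨q - 1, by omega⟩
  have h2 : toMA w * toMA b = toMA w := by rw [← toMA_mulF, ums_wb h]
  have h3 : toMA w ^ (r + 1) * toMA b = toMA w ^ (r + 1) := by
    rw [pow_succ, mul_assoc, h2]
  rw [← h3, h1]

theorem umf_ums {i : G → F} (h : UMF C b w i q) : UMS C b w q := by
  refine ⟨1, fun _ => b, fun _ => i, fun _ => ?_, fun t s hts => ?_, ?_, h.bw⟩
  · rw [h.bw]
    exact h
  · exact absurd (Subsingleton.elim t s) hts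
  · simp

end ums

end Pool.Agent.PP.CD2.H66
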