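import Pool.Agent.Helper66_D2.Tool

/-!
# Part D2, module CDQ: the Cartan number divides `q`
-/

open scoped BigOperators

noncomputable section

namespace Pool.Agent.PP.CD2.H66

open Pool.Agent.PP Pool.Agent.Helper51_AWC Pool.Agent.Helper79_WRA Pool.Agent.PP.H20

theorem cdq (hxpr : XprStmt) (hpcv : PcvStmt) (hmpj : MpjStmt) (hdms : DmsStmt) : CdqStmt := by
  intro ℓ hℓ F _ hF G _ _ n P y₁ b w i h
  obtain ⟨k, σ, hu, s, hs1, hs2, hx⟩ := hxpr ℓ F hF G n P y₁ b w i h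
  refine ⟨k, σ, hu, fun i' hi => ?_⟩
  have hp := hpcv ℓ F hF G b h.d2s.idem k σ hu i' hi
  obtain ⟨r, hr⟩ := hx i' _ hi hp
  have hm := hmpj F G b i i' h.d2s.idem h.umf.ii hi.bi hi.ii _ hp
  obtain ⟨d, hd⟩ := hdms F G (CY y₁) (bY y₁ b) w i _ h.umf b i' h.d2s.idem hi.bi hi.ii
  have e1 := hd s (by omega)
  rw [hr] at e1
  have e2 := hd (ℓ ^ (n + 1)) le_rfl
  have hq : 0 < ℓ ^ (n + 1) := pow_pos hℓ.out.pos _
  have hums : UMS (CY y₁) (bY y₁ b) w (ℓ ^ (n + 1)) := umf_ums h.umf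
  have e3 : {x : G → F | mulF i' x = x ∧ MSw b w i (ℓ ^ (n + 1)) x} =
      {x : G → F | mulF i' x = x ∧ mulF x i = x} := by
    ext x
    constructor
    · rintro ⟨h1, _, h2, _⟩
      exact ⟨h1, h2⟩
    · rintro ⟨h1, h2⟩
      refine ⟨h1, ?_, h2, ?_⟩
      · rw [← h1, ← mulF_assoc, hi.bi]
      · apply toMA_injective
        rw [toMA_pwR, ums_nil' hums hq, mul_zero, toMA_zero]
  rw [e3] at e2
  rw [e2] at hm
  have e4 : ℓ ^ (n + 1) * (s * d) = ℓ ^ (n + 1) *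
      (Module.finrank F (Submodule.span F (crn i')) * r + 1) := by rw [e1]
  have e5 : Module.finrank F (Submodule.span F (crn i')) ∣ ℓ ^ (n + 1) * (s * d) := by
    have : ℓ ^ (n + 1) * (s * d) = ℓ ^ (n + 1) * d * s := by ring
    rw [this]
    exact Dvd.dvd.mul_right hm s
  rw [e4, mul_add, mul_one] at e5
  refine (Nat.dvd_add_right ?_).1 e5
  exact Dvd.dvd.mul_left (Dvd.intro _ rfl) _

end Pool.Agent.PP.CD2.H66
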