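import Pool.Agent.Helper66_D2.Tool

/-!
# Part D2, module CLD: existence
-/

open scoped BigOperators

noncomputable section

namespace Pool.Agent.PP.CD2.H66

open Pool.Agent.PP Pool.Agent.Helper51_AWC Pool.Agent.Helper79_WRA Pool.Agent.PP.H20

theorem cld (hcla : ClaStmt) (hclc : ClcStmt) (hcle : CleStmt) : CldStmt := by
  intro ℓ hℓ F _ hF G _ _ N hN b hb hs hblk hdz hQ
  obtain ⟨n, P, y₁, h⟩ := hcla ℓ F hF G N hN b hb hs hblk hdz hQ
  obtain ⟨w, hw, hp⟩ := hclc ℓ F hF G n N P y₁ b h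
  exact ⟨n, P, y₁, w, ⟨h.normal, h.cyc, h.card, h.le, h.mem, h.ord, h.idem, h.supp, h.frat, h.prj,
    h.prj1, h.npj, hw, hp, hcle ℓ F hF G N hN y₁ b w _ hb (pow_pos hℓ.out.pos _) hw⟩, h.brw⟩

end Pool.Agent.PP.CD2.H66
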