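import Pool.Agent.Helper66_D2.Tool

/-!
# Part D2, module CLE: the conjugates of `w` under the normaliser of `P₁`
-/

open scoped BigOperators

set_option linter.unusedSectionVars false

noncomputable section

namespace Pool.Agent.PP.CD2.H66

open Pool.Agent.PP Pool.Agent.Helper51_AWC Pool.Agent.Helper79_WRA Pool.Agent.PP.H20

variable {F : Type} [Field F] {G : Type} [Group G] [Finite G]

theorem conj_mem_C {N : Subgroup G} (hN : N.Normal) {y x c : G} (hx : x ∈ NY y)
    (hc : c ∈ N ⊓ CY y) : x⁻¹ * c * x ∈ N ⊓ CY y := by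
  refine ⟨by simpa using hN.conj_mem c hc.1 x⁻¹, ?_⟩
  change x⁻¹ * c * x ∈ Subgroup.centralizer (Subgroup.zpowers y : Set G)
  rw [Subgroup.mem_centralizer_iff]
  intro z hz
  have h1 : x * z * x⁻¹ ∈ Subgroup.zpowers y := (Subgroup.mem_normalizer_iff.1 hx z).1 hz
  have h2 := Subgroup.mem_centralizer_iff.1 hc.2 _ h1
  calc z * (x⁻¹ * c * x) = x⁻¹ * ((x * z * x⁻¹) * c) * x := by group
    _ = x⁻¹ * (c * (x * z * x⁻¹)) * x := by rw [h2]
    _ = x⁻¹ * c * x * z := by group

theorem conj_sp {N : Subgroup G} (hN : N.Normal) {y x : G} (hx : x ∈ NY y) {a : G → F}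
    (ha : SpF (N ⊓ CY y) a) : SpF (N ⊓ CY y) (fun g => a (x⁻¹ * g * x)) := by
  intro g hg
  apply ha
  intro h
  apply hg
  have := conj_mem_C hN (inv_mem hx) h
  have e : x⁻¹⁻¹ * (x⁻¹ * g * x) * x⁻¹ = g := by group
  rwa [e] at this

theorem conj_cm {N : Subgroup G} (hN : N.Normal) {y x : G} (hx : x ∈ NY y) {a : G → F}
    (ha : CmF (N ⊓ CY y) a) : CmF (N ⊓ CY y) (fun g => a (x⁻¹ * g * x)) := by
  intro c hc g
  have h := ha _ (conj_mem_C hN hx hc) (x⁻¹ * g * x)
  change a (x⁻¹ * (c * g * c⁻¹) * x) = a (x⁻¹ * g * x)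
  rw [← h]
  congr 1
  group

theorem cle (hcen : CenStmt) : CleStmt := by
  intro ℓ _ F _ hF G _ _ N hN y₁ b w q hb hq hw x hx
  have hsw := ums_sw hw
  have hcw := ums_cw hw
  have hbw := ums_w hw
  have hcb := ums_cb hw
  have hnil := ums_nil' hw hq
  obtain ⟨m, e, i, h1, h2, h3, h4⟩ := hw
  set C := N ⊓ CY y₁ with hC
  set w' : G → F := fun g => w (x⁻¹ * g * x) with hw'
  have hsw' : SpF C w' := conj_sp hN hx hsw
  have hcw' : CmF C w' := conj_cm hN hx hcw
  have hb1 : (fun g => bY y₁ b (x⁻¹ * g * x)) = bY y₁ b := by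
    funext g
    have := bY_cm (y := y₁) (cmF_of_cl hb (⊤ : Subgroup G)) x⁻¹
      ⟨Subgroup.mem_top _, (NY y₁).inv_mem hx⟩ g
    rwa [inv_inv] at this
  have hbw' : mulF (bY y₁ b) w' = w' := by
    have := conj_mulF x (bY y₁ b) w
    rw [hbw, hb1] at this
    exact this.symm
  have hnil' : toMA w' ^ q = 0 := by
    have : toMA w' = MonoidAlgebra.single x (1 : F) * toMA w * MonoidAlgebra.single x⁻¹ (1 : F) :=
      toMA_conj x w
    have key : ∀ s : ℕ, toMA w' ^ s =
        MonoidAlgebra.single x (1 : F) * toMA w ^ s * MonoidAlgebra.single x⁻¹ (1 : F) := by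
      intro s
      induction s with
      | zero => rw [pow_zero, pow_zero, mul_one, single_mul_single_inv]
      | succ s ih =>
        rw [pow_succ, ih, this, pow_succ]
        have h : (MonoidAlgebra.single x (1 : F) * toMA w ^ s * MonoidAlgebra.single x⁻¹ (1 : F)) *
            (MonoidAlgebra.single x (1 : F) * toMA w * MonoidAlgebra.single x⁻¹ (1 : F)) =
            MonoidAlgebra.single x (1 : F) * toMA w ^ s * ((MonoidAlgebra.single x⁻¹ (1 : F) *
            MonoidAlgebra.single x (1 : F)) * (toMA w * MonoidAlgebra.single x⁻¹ (1 : F))) := by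
          simp only [mul_assoc]
        rw [h, single_inv_mul_single, one_mul]
        simp only [mul_assoc]
    rw [key, hnil, mul_zero, zero_mul]
  obtain ⟨r, rfl⟩ : ∃ r, q = r + 1 := ⟨q - 1, by omega⟩
  have key : ∀ t, ∃ v : G → F, SpF C v ∧ CmF C v ∧ mulF (e t) v = v ∧
      mulF (e t) w' = mulF (mulF (e t) w) v := by
    intro t
    have ht := h1 t
    obtain ⟨α, hα⟩ := hcen F G C (e t) (mulF (e t) w) (i t) (r + 1) ht (mulF (e t) w')
      (ht.sb.mul hsw') (ht.cb.mul hcw') (by rw [← mulF_assoc, ht.bb])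
    set v : G → F := ∑ s ∈ Finset.range r, α (s + 1) • pwF (mulF (e t) w) s (e t) with hv
    have hsv : SpF C v := SpF.sum fun s _ => SpF.smul _ (SpF.pwF ht.sw ht.sb s)
    have hcv : CmF C v := CmF.sum fun s _ => CmF.smul _ (CmF.pwF ht.cw ht.cb s)
    have h5 : mulF (e t) w' = mulF (mulF (e t) w) v + α 0 • e t := by
      rw [hα, Finset.sum_range_succ']
      congr 1
      apply toMA_injective
      rw [toMA_sum', toMA_mulF, hv, toMA_sum', Finset.mul_sum]
      refine Finset.sum_congr rfl fun s _ => ?_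
      rw [toMA_smul, toMA_smul, pwF_succ, toMA_mulF, mul_smul_comm]
    have h6 : α 0 = 0 := by
      by_contra h0
      have n1 : IsNilpotent (toMA (mulF (e t) w')) := by
        rw [toMA_mulF]
        have hc : Commute (toMA (e t)) (toMA w') := comm_of ht.cb hsw'
        exact hc.isNilpotent_mul_left ⟨_, hnil'⟩
      have n2 : IsNilpotent (toMA (mulF (mulF (e t) w) v)) := by
        rw [toMA_mulF]
        have hc : Commute (toMA (mulF (e t) w)) (toMA v) := comm_of ht.cw hsv
        refine hc.isNilpotent_mul_right ?_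
        rw [toMA_mulF]
        have hc2 : Commute (toMA (e t)) (toMA w) := comm_of ht.cb hsw
        exact hc2.isNilpotent_mul_left ⟨_, hnil⟩
      have n3 : IsNilpotent (toMA (mulF (e t) w') - toMA (mulF (mulF (e t) w) v)) := by
        refine Commute.isNilpotent_sub ?_ n1 n2
        exact comm_of (ht.cb.mul hcw') (ht.sw.mul hsv)
      have n4 : toMA (mulF (e t) w') - toMA (mulF (mulF (e t) w) v) = α 0 • toMA (e t) := by
        rw [h5, toMA_add, toMA_smul]
        abel
      rw [n4] at n3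
      obtain ⟨k, hk⟩ := n3
      rw [smul_pow] at hk
      have h7 : toMA (e t) ^ k = 0 := by
        rcases smul_eq_zero.1 hk with h | h
        · exact absurd h (pow_ne_zero _ h0)
        · exact h
      have h8 : toMA (e t) * toMA (e t) = toMA (e t) := by rw [← toMA_mulF, ht.bb]
      have h9 : toMA (e t) = 0 := by
        rcases Nat.eq_zero_or_pos k with rfl | hk0
        · rw [pow_zero] at h7
          rw [← mul_one (toMA (e t)), h7, mul_zero]
        · rwa [IsIdempotentElem.pow_eq (n := k) h8 (by omega)] at h7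
      have h10 : e t = 0 := toMA_injective (h9.trans toMA_zero.symm)
      apply ht.nz
      have h11 : i t = 0 := by rw [← ht.bi, h10, zero_mulF]
      rw [h11]
      apply toMA_injective
      rw [toMA_pwF, toMA_zero, mul_zero]
    refine ⟨v, hsv, hcv, ?_, ?_⟩
    · apply toMA_injective
      rw [toMA_mulF, hv, toMA_sum', Finset.mul_sum]
      refine Finset.sum_congr rfl fun s _ => ?_
      have hp : mulF (e t) (pwF (mulF (e t) w) s (e t)) = pwF (mulF (e t) w) s (e t) := by
        rw [umf_pw ht.bb ht.cb hsw, ← mulF_assoc, ht.bb]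
      rw [toMA_smul, mul_smul_comm, ← toMA_mulF, hp]
    · rw [h5, h6, zero_smul, add_zero]
  choose v hsv hcv hev hwv using key
  refine ⟨∑ t, v t, SpF.sum fun t _ => hsv t, CmF.sum fun t _ => hcv t, ?_⟩
  change w' = _
  rw [mulF_sum]
  calc w' = mulF (bY y₁ b) w' := hbw'.symm
    _ = ∑ t, mulF (e t) w' := by rw [← h3, sum_mulF]
    _ = ∑ t, mulF w (v t) := by
      refine Finset.sum_congr rfl fun t _ => ?_
      rw [hwv, cm_comm (h1 t).cb hsw, mulF_assoc, hev]

end Pool.Agent.PP.CD2.H66
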