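import Pool.Agent.Helper66_D2.Tool
import Pool.Agent.Helper26_D1.Mcd
import Pool.Agent.Helper26_D2.Brq

/-!
# Part D2, module MCQ
-/

open scoped BigOperators

noncomputable section

namespace Pool.Agent.PP.CD2.H66

open Pool.Agent.PP Pool.Agent.Helper51_AWC Pool.Agent.Helper79_WRA Pool.Agent.PP.D1.H26

theorem le_NY {G : Type} [Group G] [Finite G] {P : Subgroup G} (hcyc : IsCyclic P) {y : G}
    (hy : y ∈ P) : P ≤ NY y := by
  intro p hp
  apply CY_le_NY
  change p ∈ Subgroup.centralizer (Subgroup.zpowers y : Set G)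
  rw [Subgroup.mem_centralizer_iff]
  intro z hz
  have hzP : z ∈ P := (Subgroup.zpowers_le.2 hy) hz
  have hcg := hcyc.commGroup
  have h1 := mul_comm' (⟨z, hzP⟩ : P) ⟨p, hp⟩
  exact congrArg (fun r : P => (r : G)) h1

theorem free' {G : Type} [Group G] [Finite G] {ℓ : ℕ} [hℓ : Fact ℓ.Prime] {P : Subgroup G}
    (hc : IsCyclic P) {n : ℕ} (hcard : Nat.card P = ℓ ^ (n + 1)) {y g p : G} (hy : y ∈ P)
    (ho : orderOf y = ℓ) (hp : p ∈ P) (hp1 : p ≠ 1) (hg : g⁻¹ * p * g ∈ P) : g ∈ NY y := by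
  classical
  have hex : ∃ m : ℕ, p ^ ℓ ^ m = 1 := by
    refine ⟨n + 1, ?_⟩
    rw [← hcard]
    have := pow_card_eq_one' (x := (⟨p, hp⟩ : P))
    exact congrArg (fun r : P => (r : G)) this
  obtain ⟨m, hm⟩ : ∃ m, Nat.find hex = m + 1 := by
    cases h : Nat.find hex with
    | zero =>
      exfalso
      have := Nat.find_spec hex
      rw [h, pow_zero, pow_one] at this
      exact hp1 this
    | succ m => exact ⟨m, rfl⟩
  have h1 : p ^ ℓ ^ (m + 1) = 1 := by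
    rw [← hm]
    exact Nat.find_spec hex
  have h2 : p ^ ℓ ^ m ≠ 1 := Nat.find_min hex (by omega)
  have h3 : p ^ ℓ ^ m ∈ Subgroup.zpowers y := by
    refine H26.mem_zp hc hy ho (P.pow_mem hp _) ?_
    rw [← pow_mul, ← pow_succ, h1]
  refine H26.free hc hy ho h3 h2 ?_
  have h4 := conj_pow (a := g⁻¹) (b := p) (i := ℓ ^ m)
  rw [inv_inv] at h4
  rw [← h4]
  exact P.pow_mem hg _

theorem mcq (frw : FrwStmt) : McqStmt := by
  classical
  intro ℓ hℓ F _ G _ _ n N P y₁ hPN hcyc hcard hy ho V V' _ _ _ _ ρ ρ' c c₁ hc hc₁ φ hφ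
  have := Fintype.ofFinite G
  have := Fintype.ofFinite P
  obtain ⟨h, hdef⟩ : ∃ h : G → (V →ₗ[F] V'), h = fun g => ρ' g ∘ₗ φ ∘ₗ ρ g⁻¹ := ⟨_, rfl⟩
  have hh : ∀ g : G, ∀ p ∈ P, h (g * p) = h g := by
    intro g p hp
    ext v
    rw [hdef]
    simp only [LinearMap.comp_apply]
    rw [mul_inv_rev, map_mul, map_mul, Module.End.mul_apply, Module.End.mul_apply,
      hφ _ (P.inv_mem hp)]
    rw [← Module.End.mul_apply (ρ' p), ← map_mul, mul_inv_cancel, map_one, Module.End.one_apply]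
  have hhl : ∀ p g : G, ρ' p ∘ₗ h g ∘ₗ ρ p⁻¹ = h (p * g) := by
    intro p g
    ext v
    rw [hdef]
    simp only [LinearMap.comp_apply]
    rw [mul_inv_rev, map_mul, map_mul, Module.End.mul_apply, Module.End.mul_apply]
  have hPn : P ≤ NY y₁ := le_NY hcyc hy
  obtain ⟨X, hXdef⟩ : ∃ X : Finset G, X = Finset.univ.filter
      (fun g : G => g ∈ N ∧ g ∉ NY y₁) := ⟨_, rfl⟩
  obtain ⟨X₁, hX₁def⟩ : ∃ X₁ : Finset G, X₁ = Finset.univ.filter
      (fun g : G => g ∈ N ⊓ NY y₁) := ⟨_, rfl⟩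
  have hXm : ∀ g, g ∈ X ↔ g ∈ N ∧ g ∉ NY y₁ := by
    intro g
    rw [hXdef, Finset.mem_filter]
    simp
  have hX₁m : ∀ g, g ∈ X₁ ↔ g ∈ N ⊓ NY y₁ := by
    intro g
    rw [hX₁def, Finset.mem_filter]
    simp
  have hXr : ∀ g ∈ X, ∀ p ∈ P, g * p ∈ X := by
    intro g hg p hp
    rw [hXm] at hg ⊢
    exact ⟨N.mul_mem hg.1 (hPN hp), fun h1 => hg.2
      ((Subgroup.mul_mem_cancel_right _ (hPn hp)).1 h1)⟩
  have hXl : ∀ g ∈ X, ∀ p ∈ P, p * g ∈ X := by
    intro g hg p hp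
    rw [hXm] at hg ⊢
    exact ⟨N.mul_mem (hPN hp) hg.1, fun h1 => hg.2
      ((Subgroup.mul_mem_cancel_left _ (hPn hp)).1 h1)⟩
  have hX₁r : ∀ g ∈ X₁, ∀ p ∈ P, g * p ∈ X₁ := by
    intro g hg p hp
    rw [hX₁m] at hg ⊢
    exact Subgroup.mul_mem _ hg ⟨hPN hp, hPn hp⟩
  have hcs : ∀ g ∈ N, ∑ p : P, c (g * p) = 1 := by
    intro g hg
    have h1 := hc.sum g hg
    rwa [finsum_eq_sum_of_fintype] at h1
  have hc₁s : ∀ g ∈ X₁, ∑ p : P, c₁ (g * p) = 1 := by
    intro g hg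
    have h1 := hc₁.sum g ((hX₁m g).1 hg)
    rwa [finsum_eq_sum_of_fintype] at h1
  -- the two parts of the trace
  have hspl : trW c ρ ρ' φ = ∑ g ∈ X₁, c g • h g + ∑ g ∈ X, c g • h g := by
    rw [trW, finsum_eq_sum_of_fintype]
    have hdis : Disjoint X₁ X := by
      rw [Finset.disjoint_left]
      intro g h1 h2
      exact ((hXm g).1 h2).2 ((hX₁m g).1 h1).2
    rw [← Finset.sum_union hdis]
    symm
    rw [hdef]
    apply Finset.sum_subset (Finset.subset_univ _)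
    intro g _ hg
    have h3 : g ∉ N := by
      intro h4
      apply hg
      rw [Finset.mem_union, hXm, hX₁m]
      by_cases h5 : g ∈ NY y₁
      · exact Or.inl ⟨h4, h5⟩
      · exact Or.inr ⟨h4, h5⟩
    rw [hc.supp g h3, zero_smul]
  have h1st : ∑ g ∈ X₁, c g • h g = trW c₁ ρ ρ' φ := by
    rw [weights_eq P X₁ hX₁r c c₁ (fun g hg => hcs g ((hX₁m g).1 hg).1) hc₁s h
      (fun g _ p hp => hh g p hp), trW, finsum_eq_sum_of_fintype, hdef]
    apply Finset.sum_subset (Finset.subset_univ _)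
    intro g _ hg
    rw [hc₁.supp g (fun h3 => hg ((hX₁m g).2 h3)), zero_smul]
  -- representatives of the double cosets
  obtain ⟨d, hd0, hd1⟩ : ∃ d : G → F, (∀ g, g ∉ X → d g = 0) ∧
      ∀ g ∈ X, ∑ k : P × P, d ((k.1 : G) * g * (k.2 : G)⁻¹) = 1 := by
    obtain ⟨d, h1, h2⟩ := @frw F _ (P × P) G _ _ _ (bact P) (X : Set G)
      (fun k g hg => by
        rw [Finset.mem_coe] at hg ⊢
        exact hXr _ (hXl g hg _ k.1.2) _ (P.inv_mem k.2.2))
      (fun k g hg hkg => by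
        rw [Finset.mem_coe] at hg
        have h3 : (k.1 : G) * g * (k.2 : G)⁻¹ = g := hkg
        have h4 : g⁻¹ * (k.1 : G) * g = k.2 := by
          have h5 : (k.1 : G) * g = g * k.2 := mul_inv_eq_iff_eq_mul.1 h3
          rw [mul_assoc, h5, inv_mul_cancel_left]
        have h6 : (k.1 : G) = 1 := by
          by_contra h7
          exact ((hXm g).1 hg).2 (free' hcyc hcard hy ho k.1.2 h7 (by rw [h4]; exact k.2.2))
        have h8 : (k.2 : G) = 1 := by
          rw [← h4, h6]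
          group
        exact Prod.ext (Subtype.ext h6) (Subtype.ext h8))
    refine ⟨d, fun g hg => h1 g (by rwa [Finset.mem_coe]), fun g hg => ?_⟩
    have h3 := h2 g (by rwa [Finset.mem_coe])
    rw [finsum_eq_sum_of_fintype] at h3
    exact h3
  refine ⟨∑ g ∈ X, d g • h g, ?_⟩
  rw [hspl, h1st]
  congr 1
  -- the trace from `1` to `P`
  have htr : trP ρ ρ' P (∑ g ∈ X, d g • h g) =
      ∑ g ∈ X, (∑ p : P, d ((p : G)⁻¹ * g)) • h g := by
    rw [trP, finsum_eq_sum_of_fintype]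
    have e1 : ∀ p : P, ρ' p ∘ₗ (∑ g ∈ X, d g • h g) ∘ₗ ρ (p : G)⁻¹ =
        ∑ g ∈ X, d ((p : G)⁻¹ * g) • h g := by
      intro p
      have e2 : ρ' p ∘ₗ (∑ g ∈ X, d g • h g) ∘ₗ ρ (p : G)⁻¹ =
          ∑ g ∈ X, d g • h ((p : G) * g) := by
        ext v
        rw [LinearMap.comp_apply, LinearMap.comp_apply, LinearMap.sum_apply, map_sum,
          LinearMap.sum_apply]
        apply Finset.sum_congr rfl
        intro g _
        rw [LinearMap.smul_apply, map_smul, LinearMap.smul_apply, ← hhl]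
        rfl
      rw [e2, ← sum_left P X hXl (fun g => d ((p : G)⁻¹ * g) • h g) (p : G) p.2]
      apply Finset.sum_congr rfl
      intro g _
      rw [inv_mul_cancel_left]
    rw [Finset.sum_congr rfl (fun p _ => e1 p), Finset.sum_comm]
    apply Finset.sum_congr rfl
    intro g _
    rw [Finset.sum_smul]
  rw [htr]
  refine weights_eq P X hXr c _ (fun g hg => hcs g ((hXm g).1 hg).1) (fun g hg => ?_) h
    (fun g _ p hp => hh g p hp)
  rw [← hd1 g hg, Fintype.sum_prod_type, Finset.sum_comm]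
  refine Fintype.sum_equiv (Equiv.inv P) _ _ (fun q => ?_)
  refine Fintype.sum_equiv (Equiv.inv P) _ _ (fun p => ?_)
  simp [mul_assoc]

end Pool.Agent.PP.CD2.H66
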