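import Pool.Agent.Helper17_D2.Und
import Pool.Agent.Helper66_D2.Tool

/-!
# Part D2, module UND: from `und_st` of helper17
-/

open scoped BigOperators

noncomputable section

namespace Pool.Agent.PP.CD2.H66

open Pool.Agent.PP Pool.Agent.Helper51_AWC Pool.Agent.Helper79_WRA Pool.Agent.PP.H20

theorem und (hibc : IbcStmt) (hstw : StwStmt) : UndStmt := by
  intro ℓ _ F _ hF G _ _ n N P y₁ b w hS A _ _ j hj k k' σ σ' hσ hσ' htr m m' κ κ' π π' _ _ h h'
  have hst := (hstw ℓ F hF G n N P y₁ b w hS (Fin k → F) (mrep σ)).2.2.2.2.2.2.2.2.2.1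
  exact H17.und_st hibc ℓ F hF G (bY y₁ b) w (ℓ ^ (n + 1) - 1) A j k k' σ σ' hσ hσ' htr
    (by rw [hj]; exact hst) m m' κ κ' π π' h h'

end Pool.Agent.PP.CD2.H66
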