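import Pool.Agent.Helper21_D2.Ann
import Pool.Agent.Helper21_D2.Trf
import Pool.Agent.Helper74_D2.Bld
import Pool.Agent.Helper74_D2.Npj
import Pool.Agent.Helper26_D2.Brp
import Pool.Agent.Helper26_D2.Brq
import Pool.Agent.Helper26_D2.Brs
import Pool.Agent.Helper17_D2.C4d
import Pool.Agent.Helper17_D2.Ind
import Pool.Agent.Helper17_D2.Ird
import Pool.Agent.Helper91_D2.Cbd
import Pool.Agent.Helper91_D2.Cla
import Pool.Agent.Helper90_D2.Ccd
import Pool.Agent.Helper90_D2.Lfz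
import Pool.Agent.Helper66_D2.Cdq
import Pool.Agent.Helper66_D2.Cld
import Pool.Agent.Helper66_D2.Cle
import Pool.Agent.Helper66_D2.Und
import Pool.Agent.Helper66_D2.Mcq
import Pool.Agent.Helper98_D2.Uni
import Pool.Agent.Helper56_D2.Str
import Pool.Agent.Helper75_D2.Stb
import Pool.Agent.Helper65_D2.Ced
import Pool.Agent.Helper65_D2.C3d
import Pool.Agent.Helper31_D2.Cen
import Pool.Agent.Helper31_D2.Cl1
import Pool.Agent.Helper31_D2.Fex
import Pool.Agent.Helper40_D2.CL2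
import Pool.Agent.Helper56_D2.Clc
import Pool.Agent.Helper56_D2.Umx
import Pool.Agent.Helper52_D2.Cpl
import Pool.Agent.Helper52_D2.Fr1
import Pool.Agent.Helper52_D2.Key
import Pool.Agent.Helper94_D2.D2a
import Pool.Agent.Helper94_D2.D2r
import Pool.Agent.Helper36_D2.Dfx
import Pool.Agent.Helper36_D2.Uq1
import Pool.Agent.Helper34_D2.Dms
import Pool.Agent.Helper6_D2.Ebd
import Pool.Agent.Helper6_D2.Nlk
import Pool.Agent.Helper6_D2.Loc
import Pool.Agent.Helper29_D2.Fd2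
import Pool.Agent.Helper29_D2.Sud
import Pool.Agent.Helper20_D2.Fra
import Pool.Agent.Helper20_D2.Sep
import Pool.Agent.Helper20_D2.Ums
import Pool.Agent.Helper51_D2.Lf1
import Pool.Agent.Helper47_D2.Lf3
import Pool.Agent.Helper47_D2.Spa
import Pool.Agent.Helper76_D2.Mpj
import Pool.Agent.Helper30_D2.Ncq
import Pool.Agent.Helper30_D2.Psp
import Pool.Agent.Helper39_D2.Prt
import Pool.Agent.Helper24_D2.Psb
import Pool.Agent.Helper4_D2.Rsd
import Pool.Agent.Helper98_D2.Xbm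
import Pool.Agent.Helper46_D2.Xpr
import Pool.Agent.Helper62_D2.Dzb
import Pool.Agent.Helper19_D2.Lfu
import Pool.Agent.Helper89_D2.Pcv
import Pool.Agent.Helper75_D2.Chd
import Pool.Agent.Helper66_D1.AsmD1

/-!
# Part D2: the assembly
-/

noncomputable section

namespace Pool.Agent.PP.CD2.Asm

open Pool.Agent.PP

/-! sections 1, 2 -/

theorem wgt_ : WgtStmt := D66A.wgt_

theorem ann_ : AnnStmt := H21.ann

theorem anr_ : AnrStmt := H21.anr

theorem sep_ : SepStmt := H20.sep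

theorem cen_ : CenStmt := H31.cen

theorem mcq_ : McqStmt := H66.mcq D1H21.frw

theorem ebq_ : EbqStmt := H21.ebq

theorem trf_ : TrfStmt := H21.trf

theorem prt_ : PrtStmt := H39.prt trf_ wgt_

theorem tra_ : TraStmt := H39.tra prt_ mcq_ wgt_

theorem stw_ : StwStmt := H20.stw

theorem fra_ : FraStmt := H20.fra wgt_ Pool.Agent.PP.CY.H75.fre D1.H26.ebv

theorem spa_ : SpaStmt := H47.spa sep_

theorem cpl_ : CplStmt := H52.cpl spa_

/-! section 3 -/

theorem fex_ : FexStmt := H31.fex spa_ cpl_ tra_ stw_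

theorem key_ : KeyStmt := H52.key fex_ D1.H71.soc stw_

theorem fr1_ : Fr1Stmt := H52.fr1 fra_ stw_

theorem ird_ : IrdStmt := H17.ird key_ fr1_ D1.H71.soc stw_

theorem ind_ : IndStmt := H17.ind Pool.Agent.PP.H20.ibc D1.H71.soc key_ stw_

theorem und_ : UndStmt := H66.und Pool.Agent.PP.H20.ibc stw_

theorem ebd_ : EbdStmt := H6.ebd ebq_ prt_ stw_

theorem sud_ : SudStmt := H29.sud spa_ key_ prt_ ebq_ stw_ Pool.Agent.PP.H20.eig

theorem cbd_ : CbdStmt := H91.cbd D66A.cmq_ ird_ ind_ und_ ebd_ sud_ H4.rsd H65.c3d H17.c4d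
  Pool.Agent.PP.H20.eig

theorem ced_ : CedStmt := H65.ced cbd_ ird_ ind_ ebd_

theorem chd_ : ChdStmt := H75.chd Pool.Agent.PP.H94.nch Pool.Agent.PP.H20.nls
  Pool.Agent.PP.H20.brm

theorem ccd_ : CcdStmt := H90.ccd ced_ chd_

/-! section 4 -/

theorem uq1_ : Uq1Stmt := H36.uq1 ird_ ind_ ebd_

theorem xbm_ : XbmStmt := H98.xbm prt_ D1H21.frw

theorem xpr_ : XprStmt := H46.xpr uq1_ H6.nlk xbm_ fra_

theorem dms_ : DmsStmt := H34.dms anr_

theorem cdq_ : CdqStmt := H66.cdq xpr_ H89.pcv H76.mpj dms_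

theorem brq_ : BrqStmt := H26.brq D1H21.frw

theorem brs_ : BrsStmt := H26.brs D1H21.frw brq_

theorem lfu_ : LfuStmt := H19.lfu Pool.Agent.PP.H20.ibn Pool.Agent.PP.H20.ibc
  Pool.Agent.PP.H20.eig

theorem uni_ : UniStmt := H98.uni cdq_ brs_ lfu_ D1.H9.inv

/-! section 5 -/

theorem loc_ : LocStmt := H6.loc brs_

theorem brp_ : BrpStmt := H26.brp Pool.Agent.PP.H74.orb

theorem npj_ : NpjStmt := H74.npj D1.H9.inv

theorem dzb_ : DzbStmt := H62.dzb Pool.Agent.PP.H20.ibn Pool.Agent.PP.H20.ibj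
  Pool.Agent.PP.H20.ibc Pool.Agent.PP.H20.eig Pool.Agent.PP.H20.ibf

theorem bld_ : BldStmt := H74.bld

theorem stb_ : StbStmt := H75.stb Pool.Agent.PP.H74.orb Pool.Agent.PP.H20.nls brp_ bld_ D1.H9.inv

theorem lf3_ : Lf3Stmt := H47.lf3 H90.lfz stb_

theorem str_ : StrStmt := H56.str H24.psb H30.psp H36.dfx dzb_ H30.ncq loc_ npj_ brq_ uni_ H51.lf1
  lf3_ wgt_

/-! section 6 -/

theorem cl1_ : Cl1Stmt := H31.cl1 brs_

theorem cl2_ : Cl2Stmt := H40.cl2 cl1_ brp_ brq_ bld_ D1.H9.inv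

theorem cla_ : ClaStmt := H91.cla brq_ D1.H9.inv

theorem clc_ : ClcStmt := H56.clc str_ cl2_ bld_

theorem cle_ : CleStmt := H66.cle cen_

theorem cld_ : CldStmt := H66.cld cla_ clc_ cle_

theorem d2r_ : D2rStmt := H94.d2r ccd_ cld_

theorem d2a_ : D2aStmt := H94.d2a d2r_

/-- the theorem on blocks of relative cyclic defect -/
theorem fd2_ : Fd2Stmt := H29.fd2 d2a_ D1.H9.inv

end Pool.Agent.PP.CD2.Asm
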