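import Pool.Agent.Helper66_D1.Stmts
import Pool.Agent.Helper75_PP.Quo

/-!
# Squad PP, part D2: blocks of relative cyclic defect

Text: `AWC_D2.md`.  `N` is a normal subgroup of `G`, `b` a `G`-stable block idempotent of `F N` with
cyclic defect group `P` of order `q = ℓ ^ (n + 1)`, `P₁ = ⟨y₁⟩` the subgroup of order `ℓ` of `P`,
`L = N_G(P₁)`, `K = N ∩ L`, `C = N ∩ C_G(P₁)`, `b₁ = br_{P₁} b`.
-/

open scoped BigOperators

noncomputable section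

namespace Pool.Agent.PP.CD2

open Pool.Agent.Helper51_AWC Pool.Agent.Helper79_WRA

section defs

variable {F : Type} [Field F] {G : Type} [Group G] {V V' : Type} [AddCommGroup V] [Module F V]
  [AddCommGroup V'] [Module F V']

/-- the normaliser of the subgroup generated by `y` -/
def NY (y : G) : Subgroup G := Subgroup.normalizer (Subgroup.zpowers y : Set G)

/-- the centraliser of the subgroup generated by `y` -/
def CY (y : G) : Subgroup G := Subgroup.centralizer (Subgroup.zpowers y : Set G)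

/-- the Brauer map for the subgroup generated by `y` -/
def bY (y : G) (b : G → F) : G → F := br (Subgroup.zpowers y) b

/-- `a` vanishes outside `C` -/
def SpF (C : Subgroup G) (a : G → F) : Prop := ∀ x, x ∉ C → a x = 0

/-- `a` commutes with the elements of `C` -/
def CmF (C : Subgroup G) (a : G → F) : Prop := ∀ c ∈ C, ∀ x, a (c * x * c⁻¹) = a x

/-- `w ^ s a` -/
def pwF (w : G → F) (s : ℕ) (a : G → F) : G → F := (mulF w)^[s] a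

/-- `a w ^ s` -/
def pwR (w : G → F) (s : ℕ) (a : G → F) : G → F := (fun x => mulF x w)^[s] a

/-- The group ring of `C`, multiplied by `b`, is a matrix algebra over `F[w] / (w ^ q)`, and `i` is
a primitive idempotent. -/
structure UMF (C : Subgroup G) (b w i : G → F) (q : ℕ) : Prop where
  sb : SpF C b
  sw : SpF C w
  si : SpF C i
  cb : CmF C b
  cw : CmF C w
  bb : mulF b b = b
  bw : mulF b w = w
  ii : mulF i i = i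
  bi : mulF b i = i
  nil : pwF w q b = 0
  nz : pwF w (q - 1) i ≠ 0
  loc : ∀ a : G → F, SpF C a →
    ∃ α : ℕ → F, mulF i (mulF a i) = ∑ s ∈ Finset.range q, α s • pwF w s i
  full : ∃ (m : ℕ) (x y : Fin m → G → F), (∀ k, SpF C (x k) ∧ SpF C (y k)) ∧
    ∑ k, mulF (x k) (mulF i (y k)) = b

/-- an orthogonal sum of such algebras -/
def UMS (C : Subgroup G) (b w : G → F) (q : ℕ) : Prop :=
  ∃ (m : ℕ) (e i : Fin m → G → F), (∀ t, UMF C (e t) (mulF (e t) w) (i t) q) ∧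
    (∀ t s, t ≠ s → mulF (e t) (e s) = 0) ∧ ∑ t, e t = b ∧ mulF b w = w

/-- The situation: `N` is normal in `G`, `P ≤ N` is cyclic of order `ℓ ^ (n + 1)`, `b` is a central
idempotent of `F G` supported on `N`. -/
structure D2S (ℓ n : ℕ) (N P : Subgroup G) (y₁ : G) (b w : G → F) : Prop where
  normal : N.Normal
  cyc : IsCyclic P
  card : Nat.card P = ℓ ^ (n + 1)
  le : P ≤ N
  mem : y₁ ∈ P
  ord : orderOf y₁ = ℓ
  idem : IsIdem b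
  supp : SpF N b
  frat : N ⊔ NY y₁ = ⊤
  prj : PrjB N P b
  prj1 : PrjB (N ⊓ NY y₁) P (bY y₁ b)
  npj : ∀ (k : ℕ) (τ : N →* Matrix (Fin k) (Fin k) F), IsIrr τ → ev τ (fun t : N => b t) = 1 →
    ∀ ψ : Matrix (Fin k) (Fin k) F, ∑ᶠ m : N, τ m * ψ * τ m⁻¹ ≠ 1
  ums : UMS (N ⊓ CY y₁) (bY y₁ b) w (ℓ ^ (n + 1))
  pow : pwF w (ℓ ^ n) (bY y₁ b) = fun g => bY y₁ b (y₁⁻¹ * g) - bY y₁ b g
  eqv : ∀ x ∈ NY y₁, ∃ u : G → F, SpF (N ⊓ CY y₁) u ∧ CmF (N ⊓ CY y₁) u ∧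
    (fun g => w (x⁻¹ * g * x)) = mulF w u

/-- the subspace `b₁ v = v`, `w v = 0` -/
def fixW (ρ : Representation F G V) (b₁ w : G → F) : Submodule F V where
  carrier := {v | evV ρ b₁ v = v ∧ evV ρ w v = 0}
  add_mem' := by
    rintro a c ⟨h1, h2⟩ ⟨h3, h4⟩
    exact ⟨by rw [map_add, h1, h3], by rw [map_add, h2, h4, add_zero]⟩
  zero_mem' := ⟨map_zero _, map_zero _⟩
  smul_mem' := by
    rintro c a ⟨h1, h2⟩
    exact ⟨by rw [map_smul, h1], by rw [map_smul, h2, smul_zero]⟩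

/-- the image of `w ^ j` -/
def rngW (ρ : Representation F G V) (w : G → F) (j : ℕ) : Submodule F V :=
  LinearMap.range ((evV ρ w) ^ j)

/-- `π` induces an isomorphism of `fx / nm` with the representation `κ` of `A`, where `A` acts
on `V` by way of `j : A → G`. -/
structure HW {A : Type} [Group A] (j : A →* G) {m : ℕ} (κ : A →* Matrix (Fin m) (Fin m) F)
    (ρ : Representation F G V) (π : V →ₗ[F] (Fin m → F)) (fx nm : Submodule F V) : Prop where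
  int : ∀ (x : A), ∀ v ∈ fx, π (ρ (j x) v) = (κ x).mulVec (π v)
  ker : ∀ v ∈ fx, (π v = 0 ↔ v ∈ nm)
  sur : ∀ w, ∃ v ∈ fx, π v = w

/-- The Brauer maps of `b` at the `ℓ`-subgroups of `N` which are not conjugate to a subgroup of `P`
vanish. -/
def BrW (ℓ : ℕ) (N P : Subgroup G) (b : G → F) : Prop :=
  ∀ Q : Subgroup G, Q ≤ N → IsPGroup ℓ Q → br Q b ≠ 0 → ∃ g : G, Q ≤ conjS g P

/-- `e` has cyclic defect relative to `N`: `e` is below a central idempotent `a` of `F G` supported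
on `N` whose Brauer maps at the `ℓ`-subgroups of `N` which are not cyclic vanish. -/
def CyO (ℓ : ℕ) (N : Subgroup G) (e : G → F) : Prop :=
  ∃ a : G → F, IsIdem a ∧ (∀ x, x ∉ N → a x = 0) ∧ mulF e a = e ∧
    ∀ Q : Subgroup G, Q ≤ N → IsPGroup ℓ Q → br Q a ≠ 0 → IsCyclic Q

/-- The correspondence between the irreducible modular characters `φ` of `N` and `θ` of
`N ∩ N_G(P₁)`. -/
def CorW (N : Subgroup G) (y₁ : G) (b₁ w : G → F) (r : ℕ) (φ : N → F)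
    (θ : N.subgroupOf (NY y₁) → F) : Prop :=
  ∃ (n : ℕ) (σ : N →* Matrix (Fin n) (Fin n) F) (m : ℕ)
    (κ : N.subgroupOf (NY y₁) →* Matrix (Fin m) (Fin m) F)
    (π : (Fin n → F) →ₗ[F] (Fin m → F)), IsIrr σ ∧ tr σ = φ ∧ IsIrr κ ∧ tr κ = θ ∧
      HW (jN N (NY y₁)) κ (mrep σ) π (fixW (mrep σ) (fun t : N => b₁ t) (fun t : N => w t))
        (rngW (mrep σ) (fun t : N => w t) r)

/-- extension by zero -/
def extF (C : Subgroup G) (a : C → F) : G → F :=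
  open Classical in fun x => if h : x ∈ C then a ⟨x, h⟩ else 0

/-- The situation of section 4: `N = G`, `b` is a block, the normaliser of `P₁` is its
centraliser. -/
structure C4S (ℓ n : ℕ) (P : Subgroup G) (y₁ : G) (b w i : G → F) : Prop where
  d2s : D2S ℓ n (⊤ : Subgroup G) P y₁ b w
  blk : IsBlk b
  nc : NY y₁ ≤ CY y₁
  umf : UMF (CY y₁) (bY y₁ b) w i (ℓ ^ (n + 1))

/-- the subspace `b x = x = x i`, `x w ^ s = 0` -/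
def MSw (b w i : G → F) (s : ℕ) (x : G → F) : Prop :=
  mulF b x = x ∧ mulF x i = x ∧ pwR w s x = 0

/-- `V` is the only irreducible representation over `b` -/
structure Uq (b : G → F) {k : ℕ} (σ : G →* Matrix (Fin k) (Fin k) F) : Prop where
  irr : IsIrr σ
  one : ev σ b = 1
  uniq : ∀ (k' : ℕ) (σ' : G →* Matrix (Fin k') (Fin k') F), IsIrr σ' → ev σ' b = 1 → tr σ' = tr σ

/-- an idempotent `i` under `b` which has rank one on `V` and generates `F G b` -/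
structure PrI (b i : G → F) {k : ℕ} (σ : G →* Matrix (Fin k) (Fin k) F) : Prop where
  ii : mulF i i = i
  bi : mulF b i = i
  rk : (ev σ i).rank = 1
  full : ∃ (m : ℕ) (x y : Fin m → G → F), ∑ k, mulF (x k) (mulF i (y k)) = b

/-- a representation of `G` which is projective and on which `b` acts as the identity -/
structure PjR [Finite G] (b : G → F) (ρ : Representation F G V) : Prop where
  one : ∀ v, evV ρ b v = v
  prj : ∃ ψ : V →ₗ[F] V, ∑ᶠ g : G, ρ g ∘ₗ ψ ∘ₗ ρ g⁻¹ = LinearMap.id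

/-- the corner `i x = x = x i` -/
def crn (i : G → F) : Set (G → F) := {x | mulF i x = x ∧ mulF x i = x}

end defs

/-! ## 1. The algebras -/

/-- ANN -/
def AnnStmt : Prop := ∀ (F : Type) [Field F] (G : Type) [Group G] [Finite G] (C : Subgroup G)
  (b w : G → F) (q : ℕ), UMS C b w q → ∀ j ≤ q, ∀ x : G → F, mulF b x = x → pwF w j x = 0 →
  ∃ x' : G → F, mulF b x' = x' ∧ x = pwF w (q - j) x'

/-- ANR: the version for `x i = x`. -/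
def AnrStmt : Prop := ∀ (F : Type) [Field F] (G : Type) [Group G] [Finite G] (C : Subgroup G)
  (b w i : G → F) (q : ℕ), UMF C b w i q → ∀ j ≤ q, ∀ x : G → F, mulF x i = x → pwR w j x = 0 →
  ∃ x' : G → F, mulF x' i = x' ∧ x = pwR w (q - j) x'

/-- SEP -/
def SepStmt : Prop := ∀ (F : Type) [Field F] (G : Type) [Group G] [Finite G] (C : Subgroup G)
  (b w : G → F) (q : ℕ), UMS C b w q →
  ∃ (m : ℕ) (X Y : Fin m → G → F), (∀ k, SpF C (X k) ∧ SpF C (Y k)) ∧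
    ∑ k, mulF (X k) (Y k) = b ∧
  ∀ (V V' : Type) [AddCommGroup V] [Module F V] [AddCommGroup V'] [Module F V']
    (ρ : Representation F G V) (ρ' : Representation F G V') (T : Submodule F V), Stb C ρ T →
    ∀ g : V →ₗ[F] V', (∀ v ∈ T, g (evV ρ w v) = evV ρ' w (g v)) → ∀ c ∈ C, ∀ v ∈ T,
    (∑ k, evV ρ' (X k) ∘ₗ g ∘ₗ evV ρ (Y k)) (ρ c v) =
      ρ' c ((∑ k, evV ρ' (X k) ∘ₗ g ∘ₗ evV ρ (Y k)) v)

/-- CEN -/
def CenStmt : Prop := ∀ (F : Type) [Field F] (G : Type) [Group G] [Finite G] (C : Subgroup G)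
  (b w i : G → F) (q : ℕ), UMF C b w i q → ∀ c : G → F, SpF C c → CmF C c → mulF b c = c →
  ∃ α : ℕ → F, c = ∑ s ∈ Finset.range q, α s • pwF w s b

/-! ## 2. The basic lemmas -/

/-- MCQ -/
def McqStmt : Prop := ∀ (ℓ : ℕ) [Fact ℓ.Prime] (F : Type) [Field F] (G : Type) [Group G] [Finite G]
  (n : ℕ) (N P : Subgroup G) (y₁ : G), P ≤ N → IsCyclic P → Nat.card P = ℓ ^ (n + 1) → y₁ ∈ P →
  orderOf y₁ = ℓ →
  ∀ (V V' : Type) [AddCommGroup V] [Module F V] [AddCommGroup V'] [Module F V']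
    (ρ : Representation F G V) (ρ' : Representation F G V') (c c₁ : G → F), IsW N P c →
  IsW (N ⊓ NY y₁) P c₁ → ∀ φ : V →ₗ[F] V', HomOn P ρ ρ' φ →
  ∃ ψ : V →ₗ[F] V', trW c ρ ρ' φ = trW c₁ ρ ρ' φ + trP ρ ρ' P ψ

/-- EBQ -/
def EbqStmt : Prop := ∀ (ℓ : ℕ) [Fact ℓ.Prime] (F : Type) [Field F] (G : Type) [Group G] [Finite G]
  (n : ℕ) (P : Subgroup G) (y₁ : G), IsCyclic P → Nat.card P = ℓ ^ (n + 1) → y₁ ∈ P →
  orderOf y₁ = ℓ → ∀ (V : Type) [AddCommGroup V] [Module F V] (ρ : Representation F G V)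
  (a : G → F), CmF P a → ∃ ψ : V →ₗ[F] V, evV ρ a - evV ρ (bY y₁ a) = trP ρ ρ P ψ

/-- TRF -/
def TrfStmt : Prop := ∀ (F : Type) [Field F] (G : Type) [Group G] [Finite G] (C K : Subgroup G)
  (b w : G → F) (q : ℕ), UMS C b w q → C ≤ K →
  ∀ (V V' : Type) [AddCommGroup V] [Module F V] [AddCommGroup V'] [Module F V']
    [FiniteDimensional F V'] (ρ : Representation F G V) (ρ' : Representation F G V')
    (θ : V →ₗ[F] V'), ∀ j ≤ q, ∀ v, evV ρ b v = v → ((evV ρ w) ^ j) v = 0 →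
    trP ρ ρ' K θ v ∈ rngW ρ' w (q - j)

/-- PRT -/
def PrtStmt : Prop := ∀ (ℓ : ℕ) [Fact ℓ.Prime] (F : Type) [Field F], GoodF ℓ F → ∀ (G : Type)
  [Group G] [Finite G] (n : ℕ) (N P : Subgroup G) (y₁ : G) (b w : G → F), D2S ℓ n N P y₁ b w →
  ∀ (V V' : Type) [AddCommGroup V] [Module F V] [AddCommGroup V'] [Module F V']
    [FiniteDimensional F V'] (ρ : Representation F G V) (ρ' : Representation F G V')
    (h : V →ₗ[F] V'), HomOn (N ⊓ NY y₁) ρ ρ' h → (∃ ψ : V →ₗ[F] V', h = trP ρ ρ' P ψ) →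
  ∀ j ≤ ℓ ^ (n + 1), ∀ v, evV ρ (bY y₁ b) v = v → ((evV ρ w) ^ j) v = 0 →
    h v ∈ rngW ρ' w (ℓ ^ (n + 1) - j)

/-- TRA -/
def TraStmt : Prop := ∀ (ℓ : ℕ) [Fact ℓ.Prime] (F : Type) [Field F], GoodF ℓ F → ∀ (G : Type)
  [Group G] [Finite G] (n : ℕ) (N P : Subgroup G) (y₁ : G) (b w : G → F), D2S ℓ n N P y₁ b w →
  ∀ (V V' : Type) [AddCommGroup V] [Module F V] [AddCommGroup V'] [Module F V']
    [FiniteDimensional F V'] (ρ : Representation F G V) (ρ' : Representation F G V')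
    (g : V →ₗ[F] V'), HomOn (N ⊓ NY y₁) ρ ρ' g → (∀ v, g (evV ρ (bY y₁ b) v) = g v) →
  ∃ f : V →ₗ[F] V', HomOn N ρ ρ' f ∧ ∀ j ≤ ℓ ^ (n + 1), ∀ v, evV ρ (bY y₁ b) v = v →
    ((evV ρ w) ^ j) v = 0 → f v - g v ∈ rngW ρ' w (ℓ ^ (n + 1) - j)

/-- FRA -/
def FraStmt : Prop := ∀ (ℓ : ℕ) [Fact ℓ.Prime] (F : Type) [Field F], GoodF ℓ F → ∀ (G : Type)
  [Group G] [Finite G] (n : ℕ) (N P : Subgroup G) (y₁ : G) (b w : G → F), D2S ℓ n N P y₁ b w →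
  ∀ (V : Type) [AddCommGroup V] [Module F V] [FiniteDimensional F V] (ρ : Representation F G V),
  (∀ v, evV ρ b v = v) → fixW ρ (bY y₁ b) w ≤ rngW ρ w (ℓ ^ (n + 1) - 1) →
  ∃ ψ : V →ₗ[F] V, ∑ᶠ m : N, ρ (m : G) ∘ₗ ψ ∘ₗ ρ (m : G)⁻¹ = LinearMap.id

/-- SPA -/
def SpaStmt : Prop := ∀ (ℓ : ℕ) [Fact ℓ.Prime] (F : Type) [Field F], GoodF ℓ F → ∀ (G : Type)
  [Group G] [Finite G] (n : ℕ) (N P : Subgroup G) (y₁ : G) (b w : G → F), D2S ℓ n N P y₁ b w →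
  ∀ (V V' : Type) [AddCommGroup V] [Module F V] [AddCommGroup V'] [Module F V']
    (ρ : Representation F G V) (ρ' : Representation F G V') (T : Submodule F V),
  Stb (N ⊓ NY y₁) ρ T → (∀ v ∈ T, evV ρ (bY y₁ b) v = v) →
  ∀ g : V →ₗ[F] V', (∀ v ∈ T, g (evV ρ w v) = evV ρ' w (g v)) →
  ∃ g' : V →ₗ[F] V', (∀ k ∈ N ⊓ NY y₁, ∀ v ∈ T, g' (ρ k v) = ρ' k (g' v)) ∧
    ∀ W' ≤ T, Stb (N ⊓ NY y₁) ρ W' → ∀ T' : Submodule F V', Stb (N ⊓ NY y₁) ρ' T' →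
    ∀ ι : V →ₗ[F] V', (∀ k ∈ N ⊓ NY y₁, ∀ v ∈ W', ι (ρ k v) = ρ' k (ι v)) →
      (∀ v ∈ W', g v - ι v ∈ T') → ∀ v ∈ W', g' v - ι v ∈ T'

/-- CPL -/
def CplStmt : Prop := ∀ (ℓ : ℕ) [Fact ℓ.Prime] (F : Type) [Field F], GoodF ℓ F → ∀ (G : Type)
  [Group G] [Finite G] (n : ℕ) (N P : Subgroup G) (y₁ : G) (b w : G → F), D2S ℓ n N P y₁ b w →
  ∀ (V : Type) [AddCommGroup V] [Module F V] (ρ : Representation F G V) (Z Y : Submodule F V),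
  Z ≤ Y → Y ≤ fixW ρ (bY y₁ b) w → Stb (N ⊓ NY y₁) ρ Z → Stb (N ⊓ NY y₁) ρ Y →
  ∃ T : Submodule F V, Stb (N ⊓ NY y₁) ρ T ∧ T ⊓ Z = ⊥ ∧ T ⊔ Z = Y

/-! ## 3. The relative correspondence -/

/-- STW: the subspaces are stable. -/
def StwStmt : Prop := ∀ (ℓ : ℕ) [Fact ℓ.Prime] (F : Type) [Field F], GoodF ℓ F → ∀ (G : Type)
  [Group G] [Finite G] (n : ℕ) (N P : Subgroup G) (y₁ : G) (b w : G → F), D2S ℓ n N P y₁ b w →
  ∀ (V : Type) [AddCommGroup V] [Module F V] (ρ : Representation F G V),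
  (∀ x ∈ NY y₁, ∀ v, evV ρ (bY y₁ b) (ρ x v) = ρ x (evV ρ (bY y₁ b) v)) ∧
  (∀ v, evV ρ (bY y₁ b) (evV ρ (bY y₁ b) v) = evV ρ (bY y₁ b) v) ∧
  (∀ v, evV ρ (bY y₁ b) (evV ρ w v) = evV ρ w v) ∧
  (∀ v, evV ρ w (evV ρ (bY y₁ b) v) = evV ρ w v) ∧
  (∀ c ∈ N ⊓ CY y₁, ∀ v, evV ρ w (ρ c v) = ρ c (evV ρ w v)) ∧
  (evV ρ w) ^ (ℓ ^ (n + 1)) = 0 ∧
  (∀ x ∈ NY y₁, ∀ v, evV ρ w v = 0 → evV ρ w (ρ x v) = 0) ∧
  rngW ρ w (ℓ ^ (n + 1) - 1) ≤ fixW ρ (bY y₁ b) w ∧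
  (∀ j, Stb (NY y₁) ρ (rngW ρ w j)) ∧ Stb (NY y₁) ρ (fixW ρ (bY y₁ b) w) ∧
  ∀ v, ((evV ρ w) ^ (ℓ ^ n)) v = ρ y₁ (evV ρ (bY y₁ b) v) - evV ρ (bY y₁ b) v

/-- FEX -/
def FexStmt : Prop := ∀ (ℓ : ℕ) [Fact ℓ.Prime] (F : Type) [Field F], GoodF ℓ F → ∀ (G : Type)
  [Group G] [Finite G] (n : ℕ) (N P : Subgroup G) (y₁ : G) (b w : G → F), D2S ℓ n N P y₁ b w →
  ∀ (V : Type) [AddCommGroup V] [Module F V] [FiniteDimensional F V] (ρ : Representation F G V),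
  (∀ v, evV ρ b v = v) → ∀ Y : Submodule F V, rngW ρ w (ℓ ^ (n + 1) - 1) < Y →
  Y ≤ fixW ρ (bY y₁ b) w → Stb (N ⊓ NY y₁) ρ Y →
  ∃ f : V →ₗ[F] V, HomOn N ρ ρ f ∧ f ≠ 0 ∧ ∀ v ∈ fixW ρ (bY y₁ b) w, f v ∈ Y

/-- KEY -/
def KeyStmt : Prop := ∀ (ℓ : ℕ) [Fact ℓ.Prime] (F : Type) [Field F], GoodF ℓ F → ∀ (G : Type)
  [Group G] [Finite G] (n : ℕ) (N P : Subgroup G) (y₁ : G) (b w : G → F), D2S ℓ n N P y₁ b w →
  ∀ (V : Type) [AddCommGroup V] [Module F V] [FiniteDimensional F V] (ρ : Representation F G V),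
  (∀ v, evV ρ b v = v) → NSoc N ρ → ∀ Y : Submodule F V, rngW ρ w (ℓ ^ (n + 1) - 1) < Y →
  Y ≤ fixW ρ (bY y₁ b) w → Stb (NY y₁) ρ Y →
  ∃ Z : Submodule F V, Z ≠ ⊥ ∧ Stb ⊤ ρ Z ∧ Z ⊓ fixW ρ (bY y₁ b) w ≤ Y

/-- FR1 -/
def Fr1Stmt : Prop := ∀ (ℓ : ℕ) [Fact ℓ.Prime] (F : Type) [Field F], GoodF ℓ F → ∀ (G : Type)
  [Group G] [Finite G] (n : ℕ) (N P : Subgroup G) (y₁ : G) (b w : G → F), D2S ℓ n N P y₁ b w →
  ∀ (k : ℕ) (σ : G →* Matrix (Fin k) (Fin k) F), IsIrr σ → ev σ b = 1 →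
  rngW (mrep σ) w (ℓ ^ (n + 1) - 1) < fixW (mrep σ) (bY y₁ b) w

/-- IRD -/
def IrdStmt : Prop := ∀ (ℓ : ℕ) [Fact ℓ.Prime] (F : Type) [Field F], GoodF ℓ F → ∀ (G : Type)
  [Group G] [Finite G] (n : ℕ) (N P : Subgroup G) (y₁ : G) (b w : G → F), D2S ℓ n N P y₁ b w →
  ∀ (A : Type) [Group A] [Finite A] (j : A →* G), j.range = NY y₁ →
  ∀ (k : ℕ) (σ : G →* Matrix (Fin k) (Fin k) F), IsIrr σ → ev σ b = 1 →
  ∃ (m : ℕ) (κ : A →* Matrix (Fin m) (Fin m) F) (π : (Fin k → F) →ₗ[F] (Fin m → F)),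
    IsIrr κ ∧ HW j κ (mrep σ) π (fixW (mrep σ) (bY y₁ b) w)
      (rngW (mrep σ) w (ℓ ^ (n + 1) - 1))

/-- IND -/
def IndStmt : Prop := ∀ (ℓ : ℕ) [Fact ℓ.Prime] (F : Type) [Field F], GoodF ℓ F → ∀ (G : Type)
  [Group G] [Finite G] (n : ℕ) (N P : Subgroup G) (y₁ : G) (b w : G → F), D2S ℓ n N P y₁ b w →
  ∀ (A : Type) [Group A] [Finite A] (j : A →* G), j.range = NY y₁ →
  ∀ (k k' : ℕ) (σ : G →* Matrix (Fin k) (Fin k) F) (σ' : G →* Matrix (Fin k') (Fin k') F),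
  IsIrr σ → IsIrr σ' → ev σ b = 1 → ev σ' b = 1 →
  ∀ (m m' : ℕ) (κ : A →* Matrix (Fin m) (Fin m) F) (κ' : A →* Matrix (Fin m') (Fin m') F)
    (π : (Fin k → F) →ₗ[F] (Fin m → F)) (π' : (Fin k' → F) →ₗ[F] (Fin m' → F)), IsIrr κ →
  IsIrr κ' → tr κ = tr κ' →
  HW j κ (mrep σ) π (fixW (mrep σ) (bY y₁ b) w) (rngW (mrep σ) w (ℓ ^ (n + 1) - 1)) →
  HW j κ' (mrep σ') π' (fixW (mrep σ') (bY y₁ b) w) (rngW (mrep σ') w (ℓ ^ (n + 1) - 1)) →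
  tr σ = tr σ'

/-- UND -/
def UndStmt : Prop := ∀ (ℓ : ℕ) [Fact ℓ.Prime] (F : Type) [Field F], GoodF ℓ F → ∀ (G : Type)
  [Group G] [Finite G] (n : ℕ) (N P : Subgroup G) (y₁ : G) (b w : G → F), D2S ℓ n N P y₁ b w →
  ∀ (A : Type) [Group A] [Finite A] (j : A →* G), j.range = NY y₁ →
  ∀ (k k' : ℕ) (σ : G →* Matrix (Fin k) (Fin k) F) (σ' : G →* Matrix (Fin k') (Fin k') F),
  IsIrr σ → IsIrr σ' → tr σ = tr σ' →
  ∀ (m m' : ℕ) (κ : A →* Matrix (Fin m) (Fin m) F) (κ' : A →* Matrix (Fin m') (Fin m') F)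
    (π : (Fin k → F) →ₗ[F] (Fin m → F)) (π' : (Fin k' → F) →ₗ[F] (Fin m' → F)), IsIrr κ →
  IsIrr κ' →
  HW j κ (mrep σ) π (fixW (mrep σ) (bY y₁ b) w) (rngW (mrep σ) w (ℓ ^ (n + 1) - 1)) →
  HW j κ' (mrep σ') π' (fixW (mrep σ') (bY y₁ b) w) (rngW (mrep σ') w (ℓ ^ (n + 1) - 1)) →
  tr κ = tr κ'

/-- EBD -/
def EbdStmt : Prop := ∀ (ℓ : ℕ) [Fact ℓ.Prime] (F : Type) [Field F], GoodF ℓ F → ∀ (G : Type)
  [Group G] [Finite G] (n : ℕ) (N P : Subgroup G) (y₁ : G) (b w : G → F), D2S ℓ n N P y₁ b w →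
  ∀ (A : Type) [Group A] [Finite A] (j : A →* G), Function.Injective j → j.range = NY y₁ →
  ∀ (k : ℕ) (σ : G →* Matrix (Fin k) (Fin k) F) (m : ℕ) (κ : A →* Matrix (Fin m) (Fin m) F)
    (π : (Fin k → F) →ₗ[F] (Fin m → F)), IsIrr κ →
  HW j κ (mrep σ) π (fixW (mrep σ) (bY y₁ b) w) (rngW (mrep σ) w (ℓ ^ (n + 1) - 1)) →
  ∀ (a : G → F) (c : F), IsCl a → ev σ a = Matrix.scalar (Fin k) c →
  ev κ (fun t : A => bY y₁ a (j t)) = Matrix.scalar (Fin m) c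

/-- SUD -/
def SudStmt : Prop := ∀ (ℓ : ℕ) [Fact ℓ.Prime] (F : Type) [Field F], GoodF ℓ F → ∀ (G : Type)
  [Group G] [Finite G] (n : ℕ) (P : Subgroup G) (y₁ : G) (b w : G → F),
  D2S ℓ n (⊤ : Subgroup G) P y₁ b w → ∀ (A : Type)
  [Group A] [Finite A] (j : A →* G), Function.Injective j → j.range = NY y₁ →
  ∀ (m : ℕ) (κ : A →* Matrix (Fin m) (Fin m) F), IsIrr κ →
  ev κ (fun t : A => bY y₁ b (j t)) = 1 →
  ∃ (k : ℕ) (σ : G →* Matrix (Fin k) (Fin k) F) (π : (Fin k → F) →ₗ[F] (Fin m → F)),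
    IsIrr σ ∧ ev σ b = 1 ∧
      HW j κ (mrep σ) π (fixW (mrep σ) (bY y₁ b) w) (rngW (mrep σ) w (ℓ ^ (n + 1) - 1))

/-- RSD -/
def RsdStmt : Prop := ∀ (ℓ : ℕ) [Fact ℓ.Prime] (F : Type) [Field F] (G : Type) [Group G] [Finite G]
  (n : ℕ) (N P : Subgroup G) (y₁ : N) (b w : G → F), D2S ℓ n N P (y₁ : G) b w →
  D2S ℓ n (⊤ : Subgroup N) (P.subgroupOf N) y₁ (fun t : N => b t) (fun t : N => w t) ∧
    (jN N (NY (y₁ : G))).range = NY y₁ ∧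
    bY y₁ (fun t : N => b t) = fun t : N => bY (y₁ : G) b t

/-- C3D -/
def C3dStmt : Prop := ∀ (ℓ : ℕ) [Fact ℓ.Prime] (F : Type) [Field F], GoodF ℓ F → ∀ (G : Type)
  [Group G] [Finite G] (n : ℕ) (N P : Subgroup G) [N.Normal] (y₁ : G) (b w : G → F),
  D2S ℓ n N P y₁ b w → ∀ (φ : N → F) (θ : N.subgroupOf (NY y₁) → F),
  CorW N y₁ (bY y₁ b) w (ℓ ^ (n + 1) - 1) φ θ → ∀ x : NY y₁,
    CorW N y₁ (bY y₁ b) w (ℓ ^ (n + 1) - 1) (fun l => φ (MulAut.conjNormal (x : G) l))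
      (fun l => θ (MulAut.conjNormal x l))

/-- C4D -/
def C4dStmt : Prop := ∀ (ℓ : ℕ) [Fact ℓ.Prime] (F : Type) [Field F], GoodF ℓ F →
  ∀ (G : Type) [Group G] [Finite G] (n : ℕ) (N P : Subgroup G) [N.Normal] (y₁ : G) (b w : G → F),
  D2S ℓ n N P y₁ b w → ∀ (φ : N → F) (θ : N.subgroupOf (NY y₁) → F),
  CorW N y₁ (bY y₁ b) w (ℓ ^ (n + 1) - 1) φ θ → ∀ x y : NY y₁,
    x * y * x⁻¹ * y⁻¹ ∈ N.subgroupOf (NY y₁) →
    (∀ l, φ (MulAut.conjNormal (x : G) l) = φ l) → (∀ l, φ (MulAut.conjNormal (y : G) l) = φ l) →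
    (∀ l, θ (MulAut.conjNormal x l) = θ l) → (∀ l, θ (MulAut.conjNormal y l) = θ l) →
    tc N φ (x : G) (y : G) = tc (N.subgroupOf (NY y₁)) θ x y

/-- CBD -/
def CbdStmt : Prop := ∀ (ℓ : ℕ) [Fact ℓ.Prime] (F : Type) [Field F], GoodF ℓ F → ∀ (G : Type)
  [Group G] [Finite G] (n : ℕ) (N P : Subgroup G) (y₁ : G) (b w : G → F), D2S ℓ n N P y₁ b w →
  {θ : G → F | θ ∈ IBr F G ∧ actF b θ = θ}.ncard =
    {θ : NY y₁ → F | θ ∈ IBr F (NY y₁) ∧ actF (fun t : NY y₁ => bY y₁ b t) θ = θ}.ncard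

/-- CED -/
def CedStmt : Prop := ∀ (ℓ : ℕ) [Fact ℓ.Prime] (F : Type) [Field F], GoodF ℓ F → ∀ (G : Type)
  [Group G] [Finite G] (n : ℕ) (N P : Subgroup G) (y₁ : G) (b w : G → F), D2S ℓ n N P y₁ b w →
  ∀ e : G → F, IsIdem e → mulF e b = e →
  {θ : G → F | θ ∈ IBr F G ∧ actF e θ = θ}.ncard =
    {θ : NY y₁ → F | θ ∈ IBr F (NY y₁) ∧ actF (fun t : NY y₁ => bY y₁ e t) θ = θ}.ncard

/-- CHD -/
def ChdStmt : Prop := ∀ (ℓ : ℕ) [Fact ℓ.Prime] (F : Type) [Field F], GoodF ℓ F → ∀ (G : Type)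
  [Group G] [Finite G] (n : ℕ) (N P : Subgroup G) (y₁ : G) (b w : G → F), D2S ℓ n N P y₁ b w →
  BrW ℓ N P b → ∀ e : G → F, IsIdem e → mulF e b = e →
  YY ℓ N e = (Nat.card G : ℤ) * ({θ : G → F | θ ∈ IBr F G ∧ actF e θ = θ}.ncard : ℤ) -
    (Nat.card G : ℤ) * ({θ : NY y₁ → F |
      θ ∈ IBr F (NY y₁) ∧ actF (fun t : NY y₁ => bY y₁ e t) θ = θ}.ncard : ℤ)

/-- CCD -/
def CcdStmt : Prop := ∀ (ℓ : ℕ) [Fact ℓ.Prime] (F : Type) [Field F], GoodF ℓ F → ∀ (G : Type)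
  [Group G] [Finite G] (n : ℕ) (N P : Subgroup G) (y₁ : G) (b w : G → F), D2S ℓ n N P y₁ b w →
  BrW ℓ N P b → ∀ e : G → F, IsIdem e → mulF e b = e → YY ℓ N e = 0

/-! ## 4. From the centraliser to the group -/

/-- UQ1 -/
def Uq1Stmt : Prop := ∀ (ℓ : ℕ) [Fact ℓ.Prime] (F : Type) [Field F], GoodF ℓ F → ∀ (G : Type)
  [Group G] [Finite G] (n : ℕ) (P : Subgroup G) (y₁ : G) (b w i : G → F), C4S ℓ n P y₁ b w i →
  ∃ (k : ℕ) (σ : G →* Matrix (Fin k) (Fin k) F), Uq b σ ∧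
    ∃ t : Fin k → F, t ∈ fixW (mrep σ) (bY y₁ b) w ∧ evV (mrep σ) i t = t ∧
      t ∉ rngW (mrep σ) w (ℓ ^ (n + 1) - 1) ∧
      ∀ v, evV (mrep σ) i v = v → evV (mrep σ) w v = 0 →
        ∃ α : F, v - α • t ∈ rngW (mrep σ) w (ℓ ^ (n + 1) - 1)

/-- NLK -/
def NlkStmt : Prop := ∀ (F : Type) [Field F] (E : Type) [AddCommGroup E] [Module F E]
  (W : E →ₗ[F] E) (q s : ℕ) (t u : E), W ^ q = 0 → 1 ≤ s → s + 1 ≤ q → t = (W ^ (s - 1)) u →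
  t ∉ LinearMap.range (W ^ s) →
  (∀ v, W v = 0 → ∃ (α : F) (v' : E), v = α • t + (W ^ (q - 1)) v') →
  ∀ v, (W ^ (q - 1)) v = 0 → ∃ (α : F) (v' : E), v = α • u + W v'

/-- XBM -/
def XbmStmt : Prop := ∀ (ℓ : ℕ) [Fact ℓ.Prime] (F : Type) [Field F], GoodF ℓ F → ∀ (G : Type)
  [Group G] [Finite G] (n : ℕ) (P : Subgroup G) (y₁ : G) (b w i : G → F), C4S ℓ n P y₁ b w i →
  ∀ s ≤ ℓ ^ (n + 1), ∀ x : G → F, mulF i x = x → mulF x i = x → mulF w x = 0 → pwR w s x = 0 →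
  ∃ (α : F) (x' : G → F), x = α • pwF w (ℓ ^ (n + 1) - 1) i + pwF w (ℓ ^ (n + 1) - 1) x' ∧
    mulF x' i = x' ∧ pwR w s x' = 0 ∧
    ∀ t ∈ CY y₁, x t = α * pwF w (ℓ ^ (n + 1) - 1) i t

/-- XPR -/
def XprStmt : Prop := ∀ (ℓ : ℕ) [Fact ℓ.Prime] (F : Type) [Field F], GoodF ℓ F → ∀ (G : Type)
  [Group G] [Finite G] (n : ℕ) (P : Subgroup G) (y₁ : G) (b w i : G → F), C4S ℓ n P y₁ b w i →
  ∃ (k : ℕ) (σ : G →* Matrix (Fin k) (Fin k) F), Uq b σ ∧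
  ∃ s, 1 ≤ s ∧ s + 1 ≤ ℓ ^ (n + 1) ∧ ∀ (i' : G → F) (c : ℕ), PrI b i' σ →
    (∀ (V : Type) [AddCommGroup V] [Module F V] [FiniteDimensional F V]
      (ρ : Representation F G V), PjR b ρ → c ∣ Module.finrank F (LinearMap.range (evV ρ i'))) →
    ∃ r : ℕ, Module.finrank F (Submodule.span F
      {x : G → F | mulF i' x = x ∧ MSw b w i s x}) = c * r + 1

/-- LFU -/
def LfuStmt : Prop := ∀ (ℓ : ℕ) (F : Type) [Field F], GoodF ℓ F → ∀ (G : Type)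
  [Group G] [Finite G] (b : G → F), IsIdem b → ∀ (k : ℕ) (σ : G →* Matrix (Fin k) (Fin k) F),
  Uq b σ → ∃ i' : G → F, PrI b i' σ

/-- PCV -/
def PcvStmt : Prop := ∀ (ℓ : ℕ) (F : Type) [Field F], GoodF ℓ F → ∀ (G : Type)
  [Group G] [Finite G] (b : G → F), IsIdem b → ∀ (k : ℕ) (σ : G →* Matrix (Fin k) (Fin k) F),
  Uq b σ → ∀ i' : G → F, PrI b i' σ →
  ∀ (V : Type) [AddCommGroup V] [Module F V] [FiniteDimensional F V] (ρ : Representation F G V),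
    PjR b ρ → Module.finrank F (Submodule.span F (crn i')) ∣
      Module.finrank F (LinearMap.range (evV ρ i'))

/-- MPJ: the module `M` is projective. -/
def MpjStmt : Prop := ∀ (F : Type) [Field F] (G : Type)
  [Group G] [Finite G] (b i i' : G → F), IsIdem b → mulF i i = i → mulF b i' = i' →
  mulF i' i' = i' → ∀ c : ℕ, (∀ (V : Type) [AddCommGroup V] [Module F V] [FiniteDimensional F V]
      (ρ : Representation F G V), PjR b ρ → c ∣ Module.finrank F (LinearMap.range (evV ρ i'))) →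
  c ∣ Module.finrank F (Submodule.span F {x : G → F | mulF i' x = x ∧ mulF x i = x})

/-- DMS: the dimensions of the spaces `i' M_s`. -/
def DmsStmt : Prop := ∀ (F : Type) [Field F] (G : Type) [Group G] [Finite G] (C : Subgroup G)
  (b₁ w i : G → F) (q : ℕ), UMF C b₁ w i q → ∀ (b i' : G → F), IsIdem b → mulF b i' = i' →
  mulF i' i' = i' → ∃ d : ℕ, ∀ s ≤ q, Module.finrank F (Submodule.span F
      {x : G → F | mulF i' x = x ∧ MSw b w i s x}) = s * d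

/-- CDQ -/
def CdqStmt : Prop := ∀ (ℓ : ℕ) [Fact ℓ.Prime] (F : Type) [Field F], GoodF ℓ F → ∀ (G : Type)
  [Group G] [Finite G] (n : ℕ) (P : Subgroup G) (y₁ : G) (b w i : G → F), C4S ℓ n P y₁ b w i →
  ∃ (k : ℕ) (σ : G →* Matrix (Fin k) (Fin k) F), Uq b σ ∧ ∀ i' : G → F, PrI b i' σ →
    Module.finrank F (Submodule.span F (crn i')) ∣ ℓ ^ (n + 1)

/-- BRQ -/
def BrqStmt : Prop := ∀ (ℓ : ℕ) [Fact ℓ.Prime] (F : Type) [Field F], GoodF ℓ F → ∀ (G : Type)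
  [Group G] [Finite G] (n : ℕ) (N P : Subgroup G) (y₁ : G), P ≤ N → IsCyclic P →
  Nat.card P = ℓ ^ (n + 1) → y₁ ∈ P → orderOf y₁ = ℓ → ∀ c c₁ a : G → F, IsW N P c →
  IsW (N ⊓ NY y₁) P c₁ → CmF P a →
  bY y₁ (fun x => ∑ᶠ g : G, c g * a (g⁻¹ * x * g)) =
    fun x => ∑ᶠ g : G, c₁ g * bY y₁ a (g⁻¹ * x * g)

/-- BRS -/
def BrsStmt : Prop := ∀ (ℓ : ℕ) [Fact ℓ.Prime] (F : Type) [Field F], GoodF ℓ F → ∀ (G : Type)
  [Group G] [Finite G] (n : ℕ) (N P : Subgroup G) (y₁ : G), P ≤ N → IsCyclic P →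
  Nat.card P = ℓ ^ (n + 1) → y₁ ∈ P → orderOf y₁ = ℓ → ∀ b : G → F, SpF N b → CmF N b →
  mulF b b = b → PrjB (N ⊓ NY y₁) P (bY y₁ b) → ∀ c₀ : G → F, SpF (N ⊓ CY y₁) c₀ →
  CmF (N ⊓ NY y₁) c₀ → mulF (bY y₁ b) c₀ = c₀ →
  ∃ z : G → F, SpF N z ∧ CmF N z ∧ mulF b z = z ∧ bY y₁ z = c₀

/-- UNI -/
def UniStmt : Prop := ∀ (ℓ : ℕ) [Fact ℓ.Prime] (F : Type) [Field F], GoodF ℓ F → ∀ (G : Type)
  [Group G] [Finite G] (n : ℕ) (P : Subgroup G) (y₁ : G) (b w i : G → F), C4S ℓ n P y₁ b w i →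
  ∃ z i' : G → F, UMF (⊤ : Subgroup G) b z i' (ℓ ^ (n + 1))

/-! ## 5. The structure theorem -/

/-- PSB -/
def PsbStmt : Prop := ∀ (ℓ : ℕ) [Fact ℓ.Prime] (F : Type) [Field F], GoodF ℓ F → ∀ (G H : Type)
  [Group G] [Finite G] [Group H] [Finite H] (p : G →* H), Function.Surjective p → ∀ y₁ : G,
  orderOf y₁ = ℓ → y₁ ∈ Subgroup.center G → p.ker = Subgroup.zpowers y₁ → ∀ e : G → F, IsBlk e →
  IsBlk (H75.push p e)

/-- PSP -/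
def PspStmt : Prop := ∀ (F : Type) [Field F] (G H : Type)
  [Group G] [Finite G] [Group H] [Finite H] (p : G →* H), Function.Surjective p →
  ∀ P : Subgroup G, p.ker ≤ P → ∀ e : G → F, PrjB (⊤ : Subgroup G) P e →
  PrjB (⊤ : Subgroup H) (P.map p) (H75.push p e)

/-- DFX -/
def DfxStmt : Prop := ∀ (ℓ : ℕ) [Fact ℓ.Prime] (F : Type) [Field F], GoodF ℓ F → ∀ (G : Type)
  [Group G] [Finite G] (P : Subgroup G), IsPGroup ℓ P → IsCyclic P → ∀ e : G → F, IsIdem e →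
  e ≠ 0 → PrjB (⊤ : Subgroup G) P e → ∃ Q ≤ P, PrjB (⊤ : Subgroup G) Q e ∧ br Q e ≠ 0

/-- DZB -/
def DzbStmt : Prop := ∀ (ℓ : ℕ) [Fact ℓ.Prime] (F : Type) [Field F], GoodF ℓ F → ∀ (G : Type)
  [Group G] [Finite G] (e : G → F), IsBlk e → PrjB (⊤ : Subgroup G) ⊥ e →
  ∃ i : G → F, UMF (⊤ : Subgroup G) e 0 i 1

/-- NCQ -/
def NcqStmt : Prop := ∀ (ℓ : ℕ) [Fact ℓ.Prime] (G H : Type)
  [Group G] [Finite G] [Group H] [Finite H] (p : G →* H), Function.Surjective p → ∀ y₁ : G,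
  orderOf y₁ = ℓ → y₁ ∈ Subgroup.center G → p.ker = Subgroup.zpowers y₁ → ∀ P : Subgroup G,
  IsPGroup ℓ P → IsCyclic P → y₁ ∈ P → ∀ z ∈ P.map p, orderOf z = ℓ → NY z ≤ CY z

/-- LOC -/
def LocStmt : Prop := ∀ (ℓ : ℕ) [Fact ℓ.Prime] (F : Type) [Field F], GoodF ℓ F → ∀ (G : Type)
  [Group G] [Finite G] (n : ℕ) (P : Subgroup G) (y₁ : G), IsCyclic P →
  Nat.card P = ℓ ^ (n + 1) → y₁ ∈ P → orderOf y₁ = ℓ → NY y₁ ≤ CY y₁ → ∀ b : G → F, IsBlk b →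
  PrjB (NY y₁) P (bY y₁ b) → bY y₁ b ≠ 0 → IsBlk (fun t : CY y₁ => bY y₁ b t)

/-- NPJ -/
def NpjStmt : Prop := ∀ (ℓ : ℕ) [Fact ℓ.Prime] (F : Type) [Field F], GoodF ℓ F → ∀ (G : Type)
  [Group G] [Finite G] (b : G → F), IsBlk b → ∀ Q : Subgroup G, IsPGroup ℓ Q → Q ≠ ⊥ →
  br Q b ≠ 0 → ∀ (k : ℕ) (τ : G →* Matrix (Fin k) (Fin k) F), IsIrr τ → ev τ b = 1 →
    ∀ ψ : Matrix (Fin k) (Fin k) F, ∑ᶠ g : G, τ g * ψ * τ g⁻¹ ≠ 1

/-- a commutative corner: `i` is an idempotent under `e` which generates `F G e`, and `i F G i` is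
commutative of dimension at most `d`. -/
structure CmI {F : Type} [Field F] {G : Type} [Group G] (e i : G → F) (d : ℕ) : Prop where
  ii : mulF i i = i
  ei : mulF e i = i
  full : ∃ (m : ℕ) (x y : Fin m → G → F), ∑ k, mulF (x k) (mulF i (y k)) = e
  comm : ∀ a ∈ crn i, ∀ c ∈ crn i, mulF a c = mulF c a
  dim : Module.finrank F (Submodule.span F (crn i)) ≤ d

/-- LF1 -/
def Lf1Stmt : Prop := ∀ (ℓ : ℕ) [Fact ℓ.Prime] (F : Type) [Field F], GoodF ℓ F → ∀ (G H : Type)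
  [Group G] [Finite G] [Group H] [Finite H] (p : G →* H), Function.Surjective p → ∀ y₁ : G,
  orderOf y₁ = ℓ → y₁ ∈ Subgroup.center G → p.ker = Subgroup.zpowers y₁ → ∀ e : G → F, IsIdem e →
  ∀ (w' i' : H → F) (q₃ : ℕ), UMF (⊤ : Subgroup H) (H75.push p e) w' i' q₃ →
  ∃ i : G → F, CmI e i (ℓ * q₃)

/-- LFZ -/
def LfzStmt : Prop := ∀ (F : Type) [Field F] (G : Type) [Group G] [Finite G] (e i : G → F)
  (d : ℕ), IsIdem e → CmI e i d →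
  (∀ a ∈ crn i, ∃ c : G → F, IsCl c ∧ mulF e c = c ∧ mulF c i = a) ∧
    ∀ c : G → F, IsCl c → mulF e c = c → mulF c i = 0 → c = 0

/-- BRP -/
def BrpStmt : Prop := ∀ (ℓ : ℕ) [Fact ℓ.Prime] (F : Type) [Field F], GoodF ℓ F → ∀ (G : Type)
  [Group G] [Finite G] (H P Q : Subgroup G), IsPGroup ℓ P → P ≤ H → Q ≤ H → ∀ c a : G → F,
  IsW H Q c → CmF Q a →
  (br P (fun x => ∑ᶠ g : G, c g * a (g⁻¹ * x * g)) ≠ 0 → ∃ t ∈ H, P ≤ conjS t Q) ∧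
  (P = Q → ∀ c₁ : G → F, IsW (H ⊓ Subgroup.normalizer (P : Set G)) P c₁ →
    br P (fun x => ∑ᶠ g : G, c g * a (g⁻¹ * x * g)) =
      fun x => ∑ᶠ g : G, c₁ g * br P a (g⁻¹ * x * g))

/-- the situation of the structure theorem -/
structure StS {F : Type} [Field F] {G : Type} [Group G] (ℓ n : ℕ) (P : Subgroup G) (y : G)
    (e : G → F) : Prop where
  gen : Subgroup.zpowers y = P
  ord : orderOf y = ℓ ^ (n + 1)
  cen : y ^ (ℓ ^ n) ∈ Subgroup.center G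
  blk : IsBlk e
  prj : PrjB (⊤ : Subgroup G) P e
  brn : br P e ≠ 0

/-- STB -/
def StbStmt : Prop := ∀ (ℓ : ℕ) [Fact ℓ.Prime] (F : Type) [Field F], GoodF ℓ F → ∀ (G : Type)
  [Group G] [Finite G] (n : ℕ) (P : Subgroup G) (y : G) (e : G → F), StS ℓ n P y e →
  ∃ (b' : G → F) (χ : (G → F) →ₗ[F] (G → F)), χ e = b' ∧
    (∀ c c' : G → F, IsCl c → IsCl c' → mulF e c = c → mulF e c' = c' →
      χ (mulF c c') = mulF (χ c) (χ c')) ∧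
    (∀ z ∈ Subgroup.center G, χ (fun g => e (z⁻¹ * g)) = fun g => b' (z⁻¹ * g)) ∧
    (∀ m : ℕ, ∃ c : G → F, IsCl c ∧ mulF e c = c ∧ χ c = fun g => b' ((y ^ m)⁻¹ * g)) ∧
    LinearIndependent F (fun m : Fin (ℓ ^ (n + 1)) => fun g => b' ((y ^ (m : ℕ))⁻¹ * g))

/-- LF3 -/
def Lf3Stmt : Prop := ∀ (ℓ : ℕ) [Fact ℓ.Prime] (F : Type) [Field F], GoodF ℓ F → ∀ (G : Type)
  [Group G] [Finite G] (n : ℕ) (P : Subgroup G) (y : G) (e : G → F), StS ℓ n P y e →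
  ∀ (i : G → F) (d : ℕ), d ≤ ℓ ^ (n + 1) → CmI e i d →
  ∃ w : G → F, UMF (⊤ : Subgroup G) e w i (ℓ ^ (n + 1)) ∧
    pwF w (ℓ ^ n) e = fun g => e ((y ^ (ℓ ^ n))⁻¹ * g) - e g

/-- UMX -/
def UmxStmt : Prop := ∀ (F : Type) [Field F] (G : Type) [Group G] [Finite G] (C : Subgroup G)
  (b w i : C → F) (q : ℕ), UMF (⊤ : Subgroup C) b w i q →
  UMF C (extF C b) (extF C w) (extF C i) q

/-- STR -/
def StrStmt : Prop := ∀ (ℓ : ℕ) [Fact ℓ.Prime] (F : Type) [Field F], GoodF ℓ F → ∀ (G : Type)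
  [Group G] [Finite G] (n : ℕ) (P : Subgroup G) (y : G) (e : G → F), StS ℓ n P y e →
  ∃ w i : G → F, UMF (⊤ : Subgroup G) e w i (ℓ ^ (n + 1)) ∧
    pwF w (ℓ ^ n) e = fun g => e ((y ^ (ℓ ^ n))⁻¹ * g) - e g

/-! ## 6. Existence -/

/-- what CLA gives -/
structure ClS {F : Type} [Field F] {G : Type} [Group G] (ℓ n : ℕ) (N P : Subgroup G) (y₁ : G)
    (b : G → F) : Prop where
  normal : N.Normal
  cyc : IsCyclic P
  card : Nat.card P = ℓ ^ (n + 1)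
  le : P ≤ N
  mem : y₁ ∈ P
  ord : orderOf y₁ = ℓ
  idem : IsIdem b
  supp : SpF N b
  blk : IsBlk (fun t : N => b t)
  frat : N ⊔ NY y₁ = ⊤
  prj : PrjB N P b
  prj1 : PrjB (N ⊓ NY y₁) P (bY y₁ b)
  npj : ∀ (k : ℕ) (τ : N →* Matrix (Fin k) (Fin k) F), IsIrr τ → ev τ (fun t : N => b t) = 1 →
    ∀ ψ : Matrix (Fin k) (Fin k) F, ∑ᶠ m : N, τ m * ψ * τ m⁻¹ ≠ 1
  brn : br P b ≠ 0
  brw : BrW ℓ N P b

/-- CLA -/
def ClaStmt : Prop := ∀ (ℓ : ℕ) [Fact ℓ.Prime] (F : Type) [Field F], GoodF ℓ F → ∀ (G : Type)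
  [Group G] [Finite G] (N : Subgroup G), N.Normal → ∀ b : G → F, IsCl b →
  (∀ x, x ∉ N → b x = 0) → IsBlk (fun t : N => b t) → ¬ DZ ℓ (fun t : N => b t) →
  (∀ Q : Subgroup G, Q ≤ N → IsPGroup ℓ Q → br Q b ≠ 0 → IsCyclic Q) →
  ∃ (n : ℕ) (P : Subgroup G) (y₁ : G), ClS ℓ n N P y₁ b

/-- `e'` is a block of `C` below `b₁` -/
structure BlC {F : Type} [Field F] {G : Type} [Group G] (C : Subgroup G) (b₁ e' : G → F) :
    Prop where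
  supp : SpF C e'
  blk : IsBlk (fun t : C => e' t)
  le : mulF b₁ e' = e'

/-- CL1 -/
def Cl1Stmt : Prop := ∀ (ℓ : ℕ) [Fact ℓ.Prime] (F : Type) [Field F], GoodF ℓ F → ∀ (G : Type)
  [Group G] [Finite G] (n : ℕ) (N P : Subgroup G) (y₁ : G) (b : G → F), ClS ℓ n N P y₁ b →
  ∀ e' e'' : G → F, BlC (N ⊓ CY y₁) (bY y₁ b) e' → BlC (N ⊓ CY y₁) (bY y₁ b) e'' →
  ∃ k ∈ N ⊓ NY y₁, e'' = fun g => e' (k⁻¹ * g * k)

/-- CL2 -/
def Cl2Stmt : Prop := ∀ (ℓ : ℕ) [Fact ℓ.Prime] (F : Type) [Field F], GoodF ℓ F → ∀ (G : Type)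
  [Group G] [Finite G] (n : ℕ) (N P : Subgroup G) (y₁ : G) (b : G → F), ClS ℓ n N P y₁ b →
  ∀ e' : G → F, BlC (N ⊓ CY y₁) (bY y₁ b) e' →
  ∃ k ∈ N ⊓ NY y₁, PrjB (N ⊓ CY y₁) (conjS k P) e' ∧ br (conjS k P) e' ≠ 0

/-- BLD: a central idempotent is the sum of the blocks below it. -/
def BldStmt : Prop := ∀ (ℓ : ℕ) (F : Type) [Field F], GoodF ℓ F → ∀ (G : Type)
  [Group G] [Finite G] (C : Subgroup G) (b₁ : G → F), SpF C b₁ → CmF C b₁ → mulF b₁ b₁ = b₁ →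
  ∃ (m : ℕ) (e : Fin m → G → F), (∀ t, BlC C b₁ (e t)) ∧
    (∀ t s, t ≠ s → mulF (e t) (e s) = 0) ∧ ∑ t, e t = b₁

/-- CLC -/
def ClcStmt : Prop := ∀ (ℓ : ℕ) [Fact ℓ.Prime] (F : Type) [Field F], GoodF ℓ F → ∀ (G : Type)
  [Group G] [Finite G] (n : ℕ) (N P : Subgroup G) (y₁ : G) (b : G → F), ClS ℓ n N P y₁ b →
  ∃ w : G → F, UMS (N ⊓ CY y₁) (bY y₁ b) w (ℓ ^ (n + 1)) ∧
    pwF w (ℓ ^ n) (bY y₁ b) = fun g => bY y₁ b (y₁⁻¹ * g) - bY y₁ b g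

/-- CLE -/
def CleStmt : Prop := ∀ (ℓ : ℕ) [Fact ℓ.Prime] (F : Type) [Field F], GoodF ℓ F → ∀ (G : Type)
  [Group G] [Finite G] (N : Subgroup G), N.Normal → ∀ (y₁ : G) (b w : G → F) (q : ℕ), IsCl b →
  0 < q → UMS (N ⊓ CY y₁) (bY y₁ b) w q → ∀ x ∈ NY y₁, ∃ u : G → F, SpF (N ⊓ CY y₁) u ∧
    CmF (N ⊓ CY y₁) u ∧ (fun g => w (x⁻¹ * g * x)) = mulF w u

/-- CLD -/
def CldStmt : Prop := ∀ (ℓ : ℕ) [Fact ℓ.Prime] (F : Type) [Field F], GoodF ℓ F → ∀ (G : Type)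
  [Group G] [Finite G] (N : Subgroup G), N.Normal → ∀ b : G → F, IsCl b →
  (∀ x, x ∉ N → b x = 0) → IsBlk (fun t : N => b t) → ¬ DZ ℓ (fun t : N => b t) →
  (∀ Q : Subgroup G, Q ≤ N → IsPGroup ℓ Q → br Q b ≠ 0 → IsCyclic Q) →
  ∃ (n : ℕ) (P : Subgroup G) (y₁ : G) (w : G → F), D2S ℓ n N P y₁ b w ∧ BrW ℓ N P b

/-- D2R -/
def D2rStmt : Prop := ∀ (ℓ : ℕ) [Fact ℓ.Prime] (F : Type) [Field F], GoodF ℓ F → ∀ (G : Type)
  [Group G] [Finite G] (N : Subgroup G), N.Normal → ∀ e : G → F, IsIdem e → Pos ℓ e N →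
  CyO ℓ N e → YY ℓ N e = 0

/-- D2A -/
def D2aStmt : Prop := ∀ (ℓ : ℕ) [Fact ℓ.Prime] (F : Type) [Field F], GoodF ℓ F → ∀ (G : Type)
  [Group G] [Finite G] (N : Subgroup G), N.Normal → ∀ e : G → F, IsIdem e → Pos ℓ e N →
  CyO ℓ N e → YY ℓ ⊤ e = 0

/-- The defect groups of the block of `ψ` are cyclic modulo `O_ℓ(N)`: there are a class of `N`
whose central character value is not in `M` and a Sylow `ℓ`-subgroup `P` of the centraliser of an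
element `x` of the class such that `P = O_ℓ(N) ⟨u⟩`. -/
def CyclicDefect (ℓ : ℕ) (M : Ideal (integralClosure ℤ ℂ)) {N : Type} [Group N] (ψ : N → ℂ) :
    Prop :=
  ∃ (x u : N) (P : Subgroup N), red M (omega (MonoidHom.id N) ψ x) ≠ 0 ∧
    P ≤ Subgroup.centralizer ({x} : Set N) ∧ IsPGroup ℓ P ∧
    ¬ ℓ ∣ P.relIndex (Subgroup.centralizer ({x} : Set N)) ∧
    P = opCore ℓ N ⊔ Subgroup.zpowers u

/-- FD2: the theorem on blocks of relative cyclic defect. -/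
def Fd2Stmt : Prop := ∀ (ℓ : ℕ), ℓ.Prime → ∀ (M : Ideal (integralClosure ℤ ℂ)) [M.IsMaximal],
  (ℓ : integralClosure ℤ ℂ) ∈ M → ∀ (G : Type) [Group G] [Finite G],
  opCore ℓ G ≤ Subgroup.center G → ∀ N : Subgroup G, N.Normal →
  ∀ χ ∈ Irr G, ∀ ψ ∈ Irr N, (∑ᶠ n : N, χ n * starRingEnd ℂ (ψ n)) ≠ 0 → LargeDefect ℓ M ψ →
    CyclicDefect ℓ M ψ → altSum ℓ M χ = 0

end Pool.Agent.PP.CD2
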